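import Pool.Agent.H51.UC.Ia
import Pool.Agent.H62.UT.Defs

/-!
MP_75f39d_co, theorem T5*: the edge isoperimetric inequality.

`ei a = ∑_{c < a} s(c)` with `s(c)` the sum of the binary digits of `c`: the largest number of edges inside a
set of `a` vertices of a cube.

* `ei_add`: `ei x + ei y + y ≤ ei (x + y)` for `y ≤ x` (four parity cases, `ei_two`, `ei_odd`).
* `sum_card_le`: for a down-set `X` of subsets of `V`, `∑_{Y ∈ X} |Y| ≤ ei |X|` (split at a point).
* `bd_down`: for a down-set `|bd V X| + 2 ∑_{Y ∈ X} |Y| = |V| |X|`.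
* `ei_pow`: `a ≤ 2 ^ k` gives `2 ei a ≤ k a`, strict for `0 < a < 2 ^ k`.
* `ei_third`: `3 a ≤ 2 ^ (m + 1)` gives `2 ei a + a ≤ m a`.
* `iso_gen`, `iso_le`, `iso_lt`: with `min_down`.
-/

set_option autoImplicit false

namespace Pool.Agent.H51.UC

open Finset Pool.Agent.H62.UC

variable {α : Type*} [DecidableEq α]

/-- The sum of the binary digits. -/
def ds (c : ℕ) : ℕ := (Nat.digits 2 c).sum

/-- The number of edges inside an initial segment of `a` vertices. -/
def ei (a : ℕ) : ℕ := ∑ c ∈ range a, ds c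

theorem ds_even (c : ℕ) : ds (2 * c) = ds c := by
  rcases Nat.eq_zero_or_pos c with h | h
  · rw [h]
  · unfold ds
    rw [Nat.digits_def' (by norm_num) (by omega)]
    simp

theorem ds_odd (c : ℕ) : ds (2 * c + 1) = ds c + 1 := by
  unfold ds
  rw [Nat.digits_def' (by norm_num) (by omega)]
  have h1 : (2 * c + 1) % 2 = 1 := by omega
  have h2 : (2 * c + 1) / 2 = c := by omega
  rw [h1, h2, List.sum_cons, add_comm]

theorem ei_zero : ei 0 = 0 := by
  simp [ei]

theorem ei_succ (a : ℕ) : ei (a + 1) = ei a + ds a := by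
  rw [ei, sum_range_succ]
  rfl

theorem ei_one : ei 1 = 0 := by
  rw [ei_succ, ei_zero]
  simp [ds]

theorem ei_two (a : ℕ) : ei (2 * a) = 2 * ei a + a := by
  induction a with
  | zero => simp [ei_zero]
  | succ a ih =>
    have h : 2 * (a + 1) = 2 * a + 1 + 1 := by ring
    rw [h, ei_succ, ei_succ, ih, ds_even, ds_odd, ei_succ]
    ring

theorem ei_odd (a : ℕ) : ei (2 * a + 1) = ei a + ei (a + 1) + a := by
  rw [ei_succ, ei_two, ds_even, ei_succ]
  ring

theorem ei_add (x y : ℕ) (h : y ≤ x) : ei x + ei y + y ≤ ei (x + y) := by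
  have key : ∀ n x y : ℕ, x + y = n → y ≤ x → ei x + ei y + y ≤ ei (x + y) := by
    intro n
    induction n using Nat.strong_induction_on with
    | _ n ih =>
      intro x y hn hyx
      rcases Nat.eq_zero_or_pos y with h0 | h0
      · rw [h0, ei_zero]
        simp
      rcases Nat.even_or_odd' x with ⟨a, ha | ha⟩
      · rcases Nat.even_or_odd' y with ⟨b, hb | hb⟩
        · have h1 := ih (a + b) (by omega) a b rfl (by omega)
          rw [ha, hb, ei_two, ei_two, ← mul_add, ei_two]
          omega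
        · have h1 := ih (a + b) (by omega) a b rfl (by omega)
          have h2 := ih (a + (b + 1)) (by omega) a (b + 1) rfl (by omega)
          have h3 : 2 * a + (2 * b + 1) = 2 * (a + b) + 1 := by ring
          rw [ha, hb, ei_two, ei_odd, h3, ei_odd]
          have h4 : a + (b + 1) = a + b + 1 := by ring
          rw [h4] at h2
          omega
      · rcases Nat.even_or_odd' y with ⟨b, hb | hb⟩
        · have h1 := ih (a + b) (by omega) a b rfl (by omega)
          have h2 := ih (a + 1 + b) (by omega) (a + 1) b rfl (by omega)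
          have h3 : 2 * a + 1 + 2 * b = 2 * (a + b) + 1 := by ring
          rw [ha, hb, ei_two, ei_odd, h3, ei_odd]
          have h4 : a + 1 + b = a + b + 1 := by ring
          rw [h4] at h2
          omega
        · have h1 := ih (a + 1 + b) (by omega) (a + 1) b rfl (by omega)
          have h3 : 2 * a + 1 + (2 * b + 1) = 2 * (a + b + 1) := by ring
          have h4 : a + 1 + b = a + b + 1 := by ring
          rw [h4] at h1
          have h2 : ei a + ei (b + 1) + b ≤ ei (a + b + 1) := by
            rcases Nat.lt_or_ge b a with hba | hba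
            · have h5 := ih (a + (b + 1)) (by omega) a (b + 1) rfl (by omega)
              have h6 : a + (b + 1) = a + b + 1 := by ring
              rw [h6] at h5
              omega
            · have h5 : a = b := by omega
              subst h5
              have h6 := ih (a + 1 + a) (by omega) (a + 1) a rfl (by omega)
              have h7 : a + 1 + a = a + a + 1 := by ring
              rw [h7] at h6
              omega
          rw [ha, hb, ei_odd, ei_odd, h3, ei_two]
          omega
  exact key _ x y rfl h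

theorem ei_pow (k : ℕ) : ∀ a, a ≤ 2 ^ k → 2 * ei a ≤ k * a ∧
    (0 < a → a < 2 ^ k → 2 * ei a + 1 ≤ k * a) := by
  induction k with
  | zero =>
    intro a ha
    rw [pow_zero] at ha
    have h1 : ei a = 0 := by
      rcases Nat.eq_zero_or_pos a with h | h
      · rw [h, ei_zero]
      · have : a = 1 := by omega
        rw [this, ei_one]
    rw [h1]
    refine ⟨by omega, fun h2 h3 => ?_⟩
    rw [pow_zero] at h3
    omega
  | succ k ih =>
    intro a ha
    rw [pow_succ] at ha
    rcases Nat.even_or_odd' a with ⟨b, hb | hb⟩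
    · obtain ⟨h1, h2⟩ := ih b (by omega)
      rw [hb, ei_two]
      have h3 : (k + 1) * (2 * b) = 2 * (k * b) + 2 * b := by ring
      rw [h3]
      refine ⟨by omega, fun h4 h5 => ?_⟩
      rw [pow_succ] at h5
      have := h2 (by omega) (by omega)
      omega
    · obtain ⟨h1, h2⟩ := ih b (by omega)
      obtain ⟨h3, h4⟩ := ih (b + 1) (by omega)
      rw [hb, ei_odd]
      have h5 : (k + 1) * (2 * b + 1) = k * b + k * (b + 1) + 2 * b + 1 := by ring
      rw [h5]
      exact ⟨by omega, fun _ _ => by omega⟩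

theorem ei_two_pow (k : ℕ) : 2 * ei (2 ^ k) = k * 2 ^ k := by
  induction k with
  | zero => rw [pow_zero, ei_one]; norm_num
  | succ k ih =>
    rw [pow_succ, mul_comm (2 ^ k) 2, ei_two]
    have h1 : (k + 1) * (2 * 2 ^ k) = 2 * (k * 2 ^ k) + 2 * 2 ^ k := by ring
    rw [h1]
    omega

theorem ei_add_eq (m : ℕ) : ∀ c, c ≤ 2 ^ m → ei (2 ^ m + c) = ei (2 ^ m) + ei c + c := by
  induction m with
  | zero =>
    intro c hc
    rw [pow_zero] at hc ⊢
    rcases Nat.eq_zero_or_pos c with h | h
    · rw [h, ei_zero]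
      simp
    · have h1 : c = 1 := by omega
      have h2 : 1 + 1 = 2 * 1 := by norm_num
      rw [h1, h2, ei_two, ei_one]
  | succ m ih =>
    intro c hc
    rw [pow_succ] at hc ⊢
    have e1 : 2 ^ m * 2 = 2 * 2 ^ m := mul_comm _ _
    rcases Nat.even_or_odd' c with ⟨b, hb | hb⟩
    · have h1 := ih b (by omega)
      have h2 : 2 ^ m * 2 + c = 2 * (2 ^ m + b) := by omega
      rw [h2, e1, ei_two, ei_two, h1, hb, ei_two]
      ring
    · have h1 := ih b (by omega)
      have h3 := ih (b + 1) (by omega)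
      have h2 : 2 ^ m * 2 + c = 2 * (2 ^ m + b) + 1 := by omega
      have h4 : 2 ^ m + b + 1 = 2 ^ m + (b + 1) := by ring
      rw [h2, e1, ei_odd, h4, ei_two, h1, h3, hb, ei_odd]
      ring

theorem ei_third (m : ℕ) : ∀ a, 3 * a ≤ 2 * 2 ^ m → 2 * ei a + a ≤ m * a := by
  induction m using Nat.strong_induction_on with
  | _ m ih =>
    intro a ha
    rcases Nat.eq_zero_or_pos a with h0 | h0
    · rw [h0, ei_zero]
      simp
    obtain ⟨m1, rfl⟩ : ∃ m1, m = m1 + 1 := by
      rcases m with _ | m1
      · rw [pow_zero] at ha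
        omega
      · exact ⟨m1, rfl⟩
    rw [pow_succ] at ha
    rcases Nat.lt_or_ge (2 ^ m1) a with h1 | h1
    · -- `a = 2 ^ m1 + c`
      obtain ⟨c, hc⟩ : ∃ c, a = 2 ^ m1 + c := ⟨a - 2 ^ m1, by omega⟩
      have hc0 : 0 < c := by omega
      have hc1 : 3 * c ≤ 2 ^ m1 := by omega
      have h2 := ei_add_eq m1 c (by omega)
      obtain ⟨m2, rfl⟩ : ∃ m2, m1 = m2 + 1 := by
        rcases m1 with _ | m2
        · rw [pow_zero] at hc1
          omega
        · exact ⟨m2, rfl⟩
      have h3 := ih m2 (by omega) c (by rw [pow_succ] at hc1; omega)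
      have h4 := ei_two_pow (m2 + 1)
      rw [hc, h2]
      have h5 : (m2 + 1 + 1) * (2 ^ (m2 + 1) + c) =
          (m2 + 1) * 2 ^ (m2 + 1) + 2 ^ (m2 + 1) + m2 * c + 2 * c := by ring
      rw [h5]
      omega
    · have h2 := (ei_pow m1 a h1).1
      have h3 : (m1 + 1) * a = m1 * a + a := by ring
      omega

/-! ## Down-sets -/

theorem sum_card_le (V : Finset α) : ∀ X : Finset (Finset α), X ⊆ V.powerset → Down X →
    (∑ Y ∈ X, (Y.card : ℝ)) ≤ (ei X.card : ℝ) := by
  induction V using Finset.induction_on with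
  | empty =>
    intro X hX _
    have h1 : ∑ Y ∈ X, (Y.card : ℝ) = 0 := by
      refine sum_eq_zero fun Y hY => ?_
      have h2 := hX hY
      rw [powerset_empty, mem_singleton] at h2
      rw [h2, card_empty, Nat.cast_zero]
    rw [h1]
    exact Nat.cast_nonneg _
  | insert k V hk ih =>
    intro X hX hD
    have e1 : (insert k V).erase k = V := erase_insert hk
    have h0 : N0 k X ⊆ V.powerset := by
      rw [← e1]
      exact N0_sub hX
    have h1 : N1 k X ⊆ V.powerset := by
      rw [← e1]
      exact N1_sub hX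
    have d0 : Down (N0 k X) := by
      intro Y hY Z hZ
      rw [mem_N0] at hY ⊢
      exact ⟨hD Y hY.1 Z hZ, fun h => hY.2 (hZ h)⟩
    have d1 : Down (N1 k X) := by
      intro Y hY Z hZ
      rw [mem_N1] at hY ⊢
      exact ⟨fun h => hY.1 (hZ h), hD _ hY.2 _ (insert_subset_insert k hZ)⟩
    have hsub : N1 k X ⊆ N0 k X := by
      intro Y hY
      rw [mem_N1] at hY
      rw [mem_N0]
      exact ⟨hD _ hY.2 _ (subset_insert k Y), hY.1⟩
    have h2 := ih _ h0 d0
    have h3 := ih _ h1 d1
    have h4 : ∑ Y ∈ N1 k X, ((insert k Y).card : ℝ) =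
        ∑ Y ∈ N1 k X, (Y.card : ℝ) + ((N1 k X).card : ℝ) := by
      rw [← nsmul_one (N1 k X).card, ← sum_const, ← sum_add_distrib]
      refine sum_congr rfl fun Y hY => ?_
      rw [mem_N1] at hY
      rw [card_insert_of_notMem hY.1, Nat.cast_add, Nat.cast_one]
    have h5 : ((ei (N0 k X).card : ℝ) + (ei (N1 k X).card : ℝ)) + ((N1 k X).card : ℝ) ≤
        (ei X.card : ℝ) := by
      have h6 := ei_add _ _ (card_le_card hsub)
      rw [card_N0_add] at h6
      exact_mod_cast h6
    rw [sum_split k X, h4]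
    linarith

theorem card_in {V : Finset α} {X : Finset (Finset α)} (hX : X ⊆ V.powerset) :
    ((X ×ˢ V).filter (fun e => e.2 ∈ e.1)).card = ∑ Y ∈ X, Y.card := by
  rw [card_filter, sum_product]
  refine sum_congr rfl fun Y hY => ?_
  rw [← card_filter]
  congr 1
  ext a
  rw [mem_filter]
  exact ⟨fun h => h.2, fun h => ⟨mem_powerset.1 (hX hY) h, h⟩⟩

theorem bd_down {V : Finset α} {X : Finset (Finset α)} (hX : X ⊆ V.powerset) (hD : Down X) :
    (bd V X).card + 2 * ∑ Y ∈ X, Y.card = V.card * X.card := by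
  have h1 : ((X ×ˢ V).filter (fun e => e.2 ∉ e.1 ∧ insert e.2 e.1 ∈ X)).card =
      ((X ×ˢ V).filter (fun e => e.2 ∈ e.1)).card := by
    refine card_bij' (fun e _ => (insert e.2 e.1, e.2)) (fun e _ => (e.1.erase e.2, e.2))
      ?_ ?_ ?_ ?_
    · intro e he
      rw [mem_filter, mem_product] at he ⊢
      exact ⟨⟨he.2.2, he.1.2⟩, mem_insert_self _ _⟩
    · intro e he
      rw [mem_filter, mem_product] at he ⊢
      refine ⟨⟨hD _ he.1.1 _ (erase_subset _ _), he.1.2⟩, notMem_erase _ _, ?_⟩
      show insert e.2 (e.1.erase e.2) ∈ X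
      rw [insert_erase he.2]
      exact he.1.1
    · intro e he
      rw [mem_filter] at he
      exact Prod.ext (erase_insert he.2.1) rfl
    · intro e he
      rw [mem_filter] at he
      exact Prod.ext (insert_erase he.2) rfl
  have h2 := card_filter_add_card_filter_not (s := X ×ˢ V) (fun e => e.2 ∈ e.1)
  have h3 := card_filter_add_card_filter_not
    (s := (X ×ˢ V).filter (fun e => ¬ e.2 ∈ e.1)) (fun e => insert e.2 e.1 ∈ X)
  rw [filter_filter, filter_filter] at h3
  have h4 : ((X ×ˢ V).filter (fun e => ¬ e.2 ∈ e.1 ∧ ¬ insert e.2 e.1 ∈ X)).card =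
    (bd V X).card := rfl
  rw [h4, h1] at h3
  rw [card_product, mul_comm] at h2
  rw [card_in hX] at h2 h3
  omega

/-- The isoperimetric inequality for subfamilies of a down-set. -/
theorem iso_gen {V : Finset α} {D : Finset (Finset α)} (hDV : D ⊆ V.powerset) (hD : Down D)
    {c : ℝ} (hc : ∀ x : ℕ, x ≤ D.card → c * x + 2 * (ei x : ℝ) ≤ V.card * x)
    {X : Finset (Finset α)} (hX : X ⊆ D) : c * (X.card : ℝ) ≤ ((bd V X).card : ℝ) := by
  refine min_down hDV hD (fun X hX hdX => ?_) hX
  have h1 := bd_down (hX.trans hDV) hdX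
  have h2 := sum_card_le V X (hX.trans hDV) hdX
  have h3 := hc X.card (card_le_card hX)
  have h4 : ((bd V X).card : ℝ) + 2 * ∑ Y ∈ X, (Y.card : ℝ) = (V.card : ℝ) * (X.card : ℝ) := by
    exact_mod_cast h1
  linarith

theorem iso_le {V : Finset α} {D : Finset (Finset α)} (hDV : D ⊆ V.powerset) (hD : Down D)
    (hc : 3 * D.card ≤ 2 * 2 ^ V.card) {X : Finset (Finset α)} (hX : X ⊆ D) :
    X.card ≤ (bd V X).card := by
  have h1 := iso_gen hDV hD (c := 1) (fun x hx => by
    have h2 := ei_third V.card x (by omega)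
    have h3 : (2 * ei x : ℝ) + x ≤ V.card * x := by exact_mod_cast h2
    linarith) hX
  rw [one_mul] at h1
  exact_mod_cast h1

theorem iso_lt {V : Finset α} {D : Finset (Finset α)} (hDV : D ⊆ V.powerset) (hD : Down D)
    (hc : 2 * D.card < 2 ^ V.card) {X : Finset (Finset α)} (hX : X ⊆ D) (hne : X.Nonempty) :
    X.card < (bd V X).card := by
  obtain ⟨m, hm⟩ : ∃ m, V.card = m + 1 := by
    rcases h : V.card with _ | m
    · rw [h, pow_zero] at hc
      have h1 := card_le_card hX
      have h2 := card_pos.2 hne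
      omega
    · exact ⟨m, rfl⟩
  have h1 := iso_gen hDV hD (c := 1 + 1 / 2 ^ (m + 1)) (fun x hx => by
    rcases Nat.eq_zero_or_pos x with h0 | h0
    · rw [h0, ei_zero]
      simp
    rw [hm] at hc ⊢
    rw [pow_succ] at hc
    have h2 := (ei_pow m x (by omega)).2 h0 (by omega)
    have h3 : (2 * ei x : ℝ) + 1 ≤ m * x := by exact_mod_cast h2
    have h4 : (x : ℝ) ≤ 2 ^ (m + 1) := by
      have h5 : x ≤ 2 ^ (m + 1) := by
        rw [pow_succ]
        omega
      exact_mod_cast h5
    have h5 : 1 / (2 : ℝ) ^ (m + 1) * x ≤ 1 := by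
      rw [one_div, inv_mul_le_iff₀ (by positivity), mul_one]
      exact h4
    push_cast
    linarith) hX
  have h2 : (0 : ℝ) < X.card := by exact_mod_cast card_pos.2 hne
  have h3 : (0 : ℝ) < 1 / 2 ^ (m + 1) * (X.card : ℝ) := by positivity
  have h4 : (X.card : ℝ) < ((bd V X).card : ℝ) := by linarith
  exact_mod_cast h4

end Pool.Agent.H51.UC
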