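import Pool.Agent.H51.UC.Re

/-!
MP_75f39d_co, dense families: the layer inequality (note `/team-store/H51_dense2.md`, Lemma G).

`B` union-closed, `B ⊆ V.powerset`; `H` contains all sets between members of `B` and `V`.
`cl B V Y`: the sets `Z ⊆ V` whose largest member of `B` is `Y`.
`layer_R`: `R |B| - (j - 1) |B| - |H| / 2 ^ j ≤ ∑_{Y ∈ B} (2 |Y| - |V|)` for all `j`, if up-sets of size
at most `|H|` satisfy the edge-isoperimetric inequality with ratio `R`.
`layer`: the case `R = 2`, `3 |H| ≤ 2 ^ |V|`.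
-/

set_option autoImplicit false

namespace Pool.Agent.H51.UC

open Finset Pool.Agent.H62.UC

variable {α : Type*} [DecidableEq α]

/-- Layer cake: increasing functions with small support. -/
theorem cake {V : Finset α} {R : ℝ} {N : ℕ}
    (hc : ∀ x : ℕ, x ≤ N → R * x + 2 * (ei x : ℝ) ≤ V.card * x) (n : ℕ) :
    ∀ g : Finset α → ℝ, (∀ Z ⊆ V, 0 ≤ g Z) → (∀ Z ⊆ V, ∀ Z' ⊆ Z, g Z' ≤ g Z) →
      (V.powerset.filter fun Z => 0 < g Z).card = n → n ≤ N →
      R * ∑ Z ∈ V.powerset, g Z ≤ ∑ Z ∈ V.powerset, g Z * (2 * (Z.card : ℝ) - V.card) := by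
  induction n using Nat.strong_induction_on with
  | _ n ih =>
    intro g hg0 hgm hn hnN
    obtain ⟨U, hU⟩ : ∃ U, U = V.powerset.filter fun Z => 0 < g Z := ⟨_, rfl⟩
    rw [← hU] at hn
    rcases U.eq_empty_or_nonempty with h0 | h0
    · have h1 : ∀ Z ∈ V.powerset, g Z = 0 := by
        intro Z hZ
        have h2 := hg0 Z (mem_powerset.1 hZ)
        by_contra h3
        have h4 : Z ∈ U := by
          rw [hU, mem_filter]
          exact ⟨hZ, lt_of_le_of_ne h2 (Ne.symm h3)⟩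
        rw [h0] at h4
        exact absurd h4 (notMem_empty Z)
      rw [sum_congr rfl h1, sum_congr rfl (fun Z hZ => by rw [h1 Z hZ, zero_mul] :
        ∀ Z ∈ V.powerset, g Z * (2 * (Z.card : ℝ) - V.card) = 0)]
      simp
    · obtain ⟨Z0, hZ0, hmin⟩ := exists_min_image U g h0
      obtain ⟨c, hcdef⟩ : ∃ c, c = g Z0 := ⟨_, rfl⟩
      rw [← hcdef] at hmin
      have hZ0' := hZ0
      rw [hU, mem_filter] at hZ0'
      have hcpos : 0 < c := by rw [hcdef]; exact hZ0'.2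
      have hUV : U ⊆ V.powerset := by
        rw [hU]
        exact filter_subset _ _
      have hmemU : ∀ Z, Z ∈ U ↔ Z ⊆ V ∧ 0 < g Z := by
        intro Z
        rw [hU, mem_filter, mem_powerset]
      obtain ⟨g', hg'⟩ : ∃ g' : Finset α → ℝ, g' = fun Z => if Z ∈ U then g Z - c else g Z :=
        ⟨_, rfl⟩
      have e1 : ∀ Z ∈ U, g' Z = g Z - c := fun Z hZ => by rw [hg']; exact if_pos hZ
      have e2 : ∀ Z, Z ∉ U → g' Z = g Z := fun Z hZ => by rw [hg']; exact if_neg hZ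
      have e3 : ∀ Z ⊆ V, Z ∉ U → g Z = 0 := by
        intro Z hZ hZU
        rw [hmemU] at hZU
        push Not at hZU
        exact le_antisymm (hZU hZ) (hg0 Z hZ)
      have f0 : ∀ Z ⊆ V, 0 ≤ g' Z := by
        intro Z hZ
        by_cases hZU : Z ∈ U
        · rw [e1 Z hZU]
          linarith [hmin Z hZU]
        · rw [e2 Z hZU]
          exact hg0 Z hZ
      have f1 : ∀ Z ⊆ V, ∀ Z' ⊆ Z, g' Z' ≤ g' Z := by
        intro Z hZ Z' hZ'
        have h1 := hgm Z hZ Z' hZ'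
        by_cases hZU' : Z' ∈ U
        · have hZU : Z ∈ U := (hmemU Z).2 ⟨hZ, lt_of_lt_of_le ((hmemU Z').1 hZU').2 h1⟩
          rw [e1 Z hZU, e1 Z' hZU']
          linarith
        · rw [e2 Z' hZU', e3 Z' (hZ'.trans hZ) hZU']
          exact f0 Z hZ
      have f2 : (V.powerset.filter fun Z => 0 < g' Z) ⊆ U.erase Z0 := by
        intro Z hZ
        rw [mem_filter, mem_powerset] at hZ
        rw [mem_erase]
        constructor
        · rintro rfl
          rw [e1 Z hZ0, ← hcdef, sub_self] at hZ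
          exact lt_irrefl _ hZ.2
        · by_contra hZU
          rw [e2 Z hZU, e3 Z hZ.1 hZU] at hZ
          exact lt_irrefl _ hZ.2
      have f3 : (V.powerset.filter fun Z => 0 < g' Z).card < n := by
        refine lt_of_le_of_lt (card_le_card f2) ?_
        rw [card_erase_of_mem hZ0, hn]
        have := card_pos.2 h0
        omega
      have h1 := ih _ f3 g' f0 f1 rfl (by omega)
      have h2 : ∀ Z ∈ V.powerset, g Z = g' Z + if Z ∈ U then c else 0 := by
        intro Z _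
        by_cases hZU : Z ∈ U
        · rw [e1 Z hZU, if_pos hZU]
          ring
        · rw [e2 Z hZU, if_neg hZU, add_zero]
      have h3 : ∑ Z ∈ V.powerset, g Z = ∑ Z ∈ V.powerset, g' Z + c * U.card := by
        rw [sum_congr rfl h2, sum_add_distrib, ← sum_filter, filter_mem_eq_inter,
          inter_eq_right.2 hUV, sum_const, nsmul_eq_mul]
        ring
      have h4 : ∑ Z ∈ V.powerset, g Z * (2 * (Z.card : ℝ) - V.card) =
          ∑ Z ∈ V.powerset, g' Z * (2 * (Z.card : ℝ) - V.card) +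
            c * ∑ Z ∈ U, (2 * (Z.card : ℝ) - V.card) := by
        have h5 : ∀ Z ∈ V.powerset, g Z * (2 * (Z.card : ℝ) - V.card) =
            g' Z * (2 * (Z.card : ℝ) - V.card) +
              if Z ∈ U then c * (2 * (Z.card : ℝ) - V.card) else 0 := by
          intro Z hZ
          rw [h2 Z hZ]
          by_cases hZU : Z ∈ U
          · rw [if_pos hZU, if_pos hZU]
            ring
          · rw [if_neg hZU, if_neg hZU]
            ring
        rw [sum_congr rfl h5, sum_add_distrib, ← sum_filter, filter_mem_eq_inter,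
          inter_eq_right.2 hUV, mul_sum]
      have h5 := up_sum hUV (fun Z hZ k hk => by
        rw [hmemU] at hZ ⊢
        have h6 : insert k Z ⊆ V := insert_subset_iff.2 ⟨hk, hZ.1⟩
        exact ⟨h6, lt_of_lt_of_le hZ.2 (hgm _ h6 Z (subset_insert k Z))⟩)
      have h6 := hc U.card (by omega)
      have h7 : R * (U.card : ℝ) ≤ ∑ Z ∈ U, (2 * (Z.card : ℝ) - V.card) := by linarith
      have h8 := mul_le_mul_of_nonneg_left h7 hcpos.le
      rw [h3, h4]
      nlinarith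

/-- The sets whose largest member of `B` is `Y`. -/
def cl (B : Finset (Finset α)) (V Y : Finset α) : Finset (Finset α) :=
  V.powerset.filter fun Z => Y ⊆ Z ∧ ∀ W ∈ B, W ⊆ Z → W ⊆ Y

theorem mem_cl {B : Finset (Finset α)} {V Y Z : Finset α} :
    Z ∈ cl B V Y ↔ Z ⊆ V ∧ Y ⊆ Z ∧ ∀ W ∈ B, W ⊆ Z → W ⊆ Y := by
  rw [cl, mem_filter, mem_powerset]

theorem cl_card_le {B : Finset (Finset α)} {V Y Y' : Finset α} (hYY : Y' ⊆ Y) :
    (cl B V Y).card ≤ (cl B V Y').card := by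
  refine card_le_card_of_injOn (fun Z => Y' ∪ (Z \ Y)) ?_ ?_
  · intro Z hZ
    rw [mem_coe, mem_cl] at hZ
    rw [mem_coe, mem_cl]
    have h1 : Y' ∪ (Z \ Y) ⊆ Z := union_subset (hYY.trans hZ.2.1) sdiff_subset
    refine ⟨h1.trans hZ.1, subset_union_left, ?_⟩
    intro W hW hWZ
    have h2 : W ⊆ Y := hZ.2.2 W hW (hWZ.trans h1)
    intro a ha
    rcases mem_union.1 (hWZ ha) with h | h
    · exact h
    · exact absurd (h2 ha) (mem_sdiff.1 h).2
  · intro Z hZ Z' hZ' h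
    rw [mem_coe, mem_cl] at hZ hZ'
    have h1 : Y' ∪ (Z \ Y) = Y' ∪ (Z' \ Y) := h
    have h2 : ∀ X : Finset α, Y ⊆ X → X = Y ∪ (Y' ∪ (X \ Y)) := by
      intro X hX
      ext a
      rw [mem_union, mem_union, mem_sdiff]
      constructor
      · intro ha
        by_cases haY : a ∈ Y
        · exact Or.inl haY
        · exact Or.inr (Or.inr ⟨ha, haY⟩)
      · rintro (h | h | h)
        · exact hX h
        · exact hX (hYY h)
        · exact h.1
    rw [h2 Z hZ.2.1, h2 Z' hZ'.2.1, h1]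

/-- The edge bound for initial segments, piecewise linear form. -/
theorem ei_line (j : ℕ) : ∀ k : ℕ, 2 ^ (j + 1) * (ei k : ℝ) ≤ 2 ^ j * ((j : ℝ) - 1) * k + (k : ℝ) ^ 2 := by
  induction j with
  | zero =>
    intro k
    have key : 2 * ei k + k ≤ k ^ 2 := by
      induction k with
      | zero => simp [ei_zero]
      | succ k ih =>
        rw [ei_succ]
        have h1 : ds k ≤ k := by
          unfold ds
          exact Nat.digit_sum_le 2 k
        nlinarith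
    have h1 : (2 * ei k + k : ℝ) ≤ (k : ℝ) ^ 2 := by exact_mod_cast key
    push_cast
    linarith
  | succ j ih =>
    intro k
    rcases Nat.even_or_odd' k with ⟨x, rfl | rfl⟩
    · rw [ei_two]
      have h1 := ih x
      rw [pow_succ] at h1 ⊢
      rw [pow_succ] at h1 ⊢
      push_cast
      nlinarith
    · rw [ei_odd]
      have h1 := ih x
      have h2 := ih (x + 1)
      have h3 : (1 : ℝ) ≤ 2 ^ j := one_le_pow₀ (by norm_num)
      rw [pow_succ] at h1 h2 ⊢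
      rw [pow_succ]
      push_cast at h1 h2 ⊢
      nlinarith

/-- The class of `Y` is `Y` joined with a down-set. -/
theorem cl_sum_le {B : Finset (Finset α)} {V Y : Finset α} (j : ℕ) :
    ∑ Z ∈ cl B V Y, (2 * (Z.card : ℝ) - V.card) ≤
      (cl B V Y).card * ((2 * (Y.card : ℝ) - V.card) + ((j : ℝ) - 1) +
        ((cl B V Y).card : ℝ) / 2 ^ j) := by
  have hinj : Set.InjOn (fun Z : Finset α => Z \ Y) (cl B V Y : Set (Finset α)) := by
    intro Z hZ Z' hZ' h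
    rw [mem_coe, mem_cl] at hZ hZ'
    have h1 : Z \ Y = Z' \ Y := h
    rw [← sdiff_union_of_subset hZ.2.1, ← sdiff_union_of_subset hZ'.2.1, h1]
  have hD : Down ((cl B V Y).image fun Z => Z \ Y) := by
    intro L hL L' hL'
    rw [mem_image] at hL ⊢
    obtain ⟨Z, hZ, rfl⟩ := hL
    rw [mem_cl] at hZ
    have h1 : L' ∪ Y ⊆ Z := union_subset (hL'.trans sdiff_subset) hZ.2.1
    refine ⟨L' ∪ Y, ?_, ?_⟩
    · rw [mem_cl]
      exact ⟨h1.trans hZ.1, subset_union_right, fun W hW hWZ => hZ.2.2 W hW (hWZ.trans h1)⟩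
    · rw [union_sdiff_right]
      exact sdiff_eq_self_of_disjoint (disjoint_left.2 fun a ha => (mem_sdiff.1 (hL' ha)).2)
  have h1 := sum_card_le V ((cl B V Y).image fun Z => Z \ Y) (by
    intro L hL
    rw [mem_image] at hL
    obtain ⟨Z, hZ, rfl⟩ := hL
    rw [mem_cl] at hZ
    exact mem_powerset.2 (sdiff_subset.trans hZ.1)) hD
  rw [card_image_of_injOn hinj, sum_image hinj] at h1
  have h2 : ∀ Z ∈ cl B V Y, (2 * (Z.card : ℝ) - V.card) =
      (2 * (Y.card : ℝ) - V.card) + 2 * ((Z \ Y).card : ℝ) := by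
    intro Z hZ
    rw [mem_cl] at hZ
    have h3 := card_sdiff_add_card_eq_card hZ.2.1
    have h4 : ((Z \ Y).card : ℝ) + (Y.card : ℝ) = Z.card := by exact_mod_cast h3
    linarith
  rw [sum_congr rfl h2, sum_add_distrib, sum_const, nsmul_eq_mul, ← mul_sum]
  have h3 := ei_line j (cl B V Y).card
  have h4 : (0 : ℝ) < 2 ^ j := by positivity
  have h5 : 2 * (ei (cl B V Y).card : ℝ) ≤
      (cl B V Y).card * (((j : ℝ) - 1) + ((cl B V Y).card : ℝ) / 2 ^ j) := by
    have h6 : (cl B V Y).card * (((j : ℝ) - 1) + ((cl B V Y).card : ℝ) / 2 ^ j) * 2 ^ j =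
        2 ^ j * ((j : ℝ) - 1) * (cl B V Y).card + ((cl B V Y).card : ℝ) ^ 2 := by
      field_simp
    rw [pow_succ] at h3
    refine le_of_mul_le_mul_right ?_ h4
    rw [h6]
    linarith
  nlinarith

/-- The layer inequality. -/
theorem layer_R {B : Finset (Finset α)} (hB : ∀ S ∈ B, ∀ T ∈ B, S ∪ T ∈ B)
    {V : Finset α} (hBV : B ⊆ V.powerset) {H : Finset (Finset α)}
    (hH : ∀ T ∈ B, ∀ X, T ⊆ X → X ⊆ V → X ∈ H) {R : ℝ}
    (hc : ∀ x : ℕ, x ≤ H.card → R * x + 2 * (ei x : ℝ) ≤ V.card * x) (j : ℕ) :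
    (R + 1 - j) * (B.card : ℝ) - (H.card : ℝ) / 2 ^ j ≤ ∑ Y ∈ B, (2 * (Y.card : ℝ) - V.card) := by
  obtain ⟨g, hg⟩ : ∃ g : Finset α → ℝ,
      g = fun Z => ∑ Y ∈ B, if Z ∈ cl B V Y then ((cl B V Y).card : ℝ)⁻¹ else 0 := ⟨_, rfl⟩
  have hself : ∀ Y ∈ B, Y ∈ cl B V Y := fun Y hY =>
    mem_cl.2 ⟨mem_powerset.1 (hBV hY), Subset.refl _, fun W _ hW => hW⟩
  have hpos : ∀ Y ∈ B, (0 : ℝ) < (cl B V Y).card := fun Y hY => by
    exact_mod_cast card_pos.2 ⟨Y, hself Y hY⟩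
  have huniq : ∀ Y ∈ B, ∀ Y' ∈ B, ∀ Z, Z ∈ cl B V Y → Z ∈ cl B V Y' → Y = Y' := by
    intro Y hY Y' hY' Z h1 h2
    rw [mem_cl] at h1 h2
    exact Subset.antisymm (h2.2.2 Y hY h1.2.1) (h1.2.2 Y' hY' h2.2.1)
  have hex : ∀ Y ∈ B, ∀ Z, Y ⊆ Z → Z ⊆ V → ∃ Y' ∈ B, Y ⊆ Y' ∧ Z ∈ cl B V Y' := by
    intro Y hY Z hYZ hZV
    obtain ⟨Y', hY', hmax⟩ := exists_max_image (B.filter fun W => W ⊆ Z) card
      ⟨Y, mem_filter.2 ⟨hY, hYZ⟩⟩
    rw [mem_filter] at hY'
    have h1 : ∀ W ∈ B, W ⊆ Z → W ⊆ Y' := by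
      intro W hW hWZ
      have h2 := hmax (W ∪ Y') (mem_filter.2 ⟨hB W hW Y' hY'.1, union_subset hWZ hY'.2⟩)
      have h3 := eq_of_subset_of_card_le (subset_union_right : Y' ⊆ W ∪ Y') h2
      rw [h3]
      exact subset_union_left
    exact ⟨Y', hY'.1, h1 Y hY hYZ, mem_cl.2 ⟨hZV, hY'.2, h1⟩⟩
  have gval : ∀ Y ∈ B, ∀ Z ∈ cl B V Y, g Z = ((cl B V Y).card : ℝ)⁻¹ := by
    intro Y hY Z hZ
    rw [hg]
    have h1 : ∀ Y' ∈ B, Y' ≠ Y →
        (if Z ∈ cl B V Y' then ((cl B V Y').card : ℝ)⁻¹ else 0) = 0 := by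
      intro Y' hY' hne
      exact if_neg fun h => hne (huniq Y' hY' Y hY Z h hZ)
    change (∑ Y' ∈ B, if Z ∈ cl B V Y' then ((cl B V Y').card : ℝ)⁻¹ else 0) = _
    rw [sum_eq_single_of_mem Y hY h1, if_pos hZ]
  have g0 : ∀ Z, 0 ≤ g Z := by
    intro Z
    rw [hg]
    refine sum_nonneg fun Y _ => ?_
    split_ifs
    · positivity
    · exact le_refl _
  have gz : ∀ Z, (∀ Y ∈ B, Z ∉ cl B V Y) → g Z = 0 := by
    intro Z hZ
    rw [hg]
    exact sum_eq_zero fun Y hY => if_neg (hZ Y hY)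
  have gm : ∀ Z ⊆ V, ∀ Z' ⊆ Z, g Z' ≤ g Z := by
    intro Z hZV Z' hZ'
    by_cases h : ∃ Y' ∈ B, Z' ∈ cl B V Y'
    · obtain ⟨Y', hY', h1⟩ := h
      obtain ⟨Y, hY, h2, h3⟩ := hex Y' hY' Z ((mem_cl.1 h1).2.1.trans hZ') hZV
      rw [gval Y' hY' Z' h1, gval Y hY Z h3]
      refine inv_anti₀ (hpos Y hY) ?_
      exact_mod_cast cl_card_le h2
    · push Not at h
      rw [gz Z' h]
      exact g0 Z
  have gH : (V.powerset.filter fun Z => 0 < g Z) ⊆ H := by
    intro Z hZ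
    rw [mem_filter] at hZ
    by_contra hZH
    have h1 : g Z = 0 := by
      refine gz Z fun Y hY h => hZH ?_
      rw [mem_cl] at h
      exact hH Y hY Z h.2.1 h.1
    linarith [hZ.2]
  have hcake := cake hc _ g (fun Z _ => g0 Z) gm rfl (card_le_card gH)
  have hcl : ∀ Y ∈ B, V.powerset.filter (fun Z => Z ∈ cl B V Y) = cl B V Y := by
    intro Y _
    ext Z
    rw [mem_filter]
    exact ⟨fun h => h.2, fun h => ⟨mem_powerset.2 (mem_cl.1 h).1, h⟩⟩
  have hsum : ∀ f : Finset α → ℝ, ∑ Z ∈ V.powerset, g Z * f Z =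
      ∑ Y ∈ B, ((cl B V Y).card : ℝ)⁻¹ * ∑ Z ∈ cl B V Y, f Z := by
    intro f
    rw [hg]
    have h1 : ∀ Z ∈ V.powerset,
        (∑ Y ∈ B, if Z ∈ cl B V Y then ((cl B V Y).card : ℝ)⁻¹ else 0) * f Z =
          ∑ Y ∈ B, if Z ∈ cl B V Y then ((cl B V Y).card : ℝ)⁻¹ * f Z else 0 := by
      intro Z _
      rw [sum_mul]
      refine sum_congr rfl fun Y _ => ?_
      split_ifs
      · rfl
      · rw [zero_mul]
    change (∑ Z ∈ V.powerset,
      (∑ Y ∈ B, if Z ∈ cl B V Y then ((cl B V Y).card : ℝ)⁻¹ else 0) * f Z) = _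
    rw [sum_congr rfl h1, sum_comm]
    refine sum_congr rfl fun Y hY => ?_
    rw [← sum_filter, hcl Y hY, mul_sum]
  have h1 : ∑ Z ∈ V.powerset, g Z = (B.card : ℝ) := by
    have h2 := hsum fun _ => 1
    simp only [mul_one, sum_const, nsmul_eq_mul] at h2
    rw [h2]
    have h3 : ∀ Y ∈ B, ((cl B V Y).card : ℝ)⁻¹ * ((cl B V Y).card : ℝ) = 1 := fun Y hY =>
      inv_mul_cancel₀ (hpos Y hY).ne'
    rw [sum_congr rfl h3, sum_const, nsmul_eq_mul, mul_one]
  have h2 : ∑ Z ∈ V.powerset, g Z * (2 * (Z.card : ℝ) - V.card) ≤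
      ∑ Y ∈ B, ((2 * (Y.card : ℝ) - V.card) + ((j : ℝ) - 1) + ((cl B V Y).card : ℝ) / 2 ^ j) := by
    rw [hsum]
    refine sum_le_sum fun Y hY => ?_
    have h3 := cl_sum_le (B := B) (V := V) (Y := Y) j
    have h4 := mul_le_mul_of_nonneg_left h3 (inv_nonneg.2 (hpos Y hY).le)
    rwa [← mul_assoc, inv_mul_cancel₀ (hpos Y hY).ne', one_mul] at h4
  have h3 : ∑ Y ∈ B, ((cl B V Y).card : ℝ) ≤ H.card := by
    have h4 : ∑ Y ∈ B, (cl B V Y).card ≤ H.card := by
      rw [← card_biUnion]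
      · refine card_le_card fun Z hZ => ?_
        rw [mem_biUnion] at hZ
        obtain ⟨Y, hY, hZ⟩ := hZ
        rw [mem_cl] at hZ
        exact hH Y hY Z hZ.2.1 hZ.1
      · intro Y hY Y' hY' hne
        rw [Function.onFun, disjoint_left]
        intro Z h5 h6
        exact hne (huniq Y hY Y' hY' Z h5 h6)
    exact_mod_cast h4
  rw [h1] at hcake
  rw [sum_add_distrib, sum_add_distrib, sum_const, nsmul_eq_mul, ← sum_div] at h2
  have h4 : (∑ Y ∈ B, ((cl B V Y).card : ℝ)) / 2 ^ j ≤ (H.card : ℝ) / 2 ^ j :=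
    div_le_div_of_nonneg_right h3 (by positivity)
  linarith

theorem ratio_two {m x : ℕ} (h : 3 * x ≤ 2 ^ m) : 2 * (x : ℝ) + 2 * (ei x : ℝ) ≤ m * x := by
  have h1 := ei_third m (2 * x) (by omega)
  rw [ei_two] at h1
  have h2 : 2 * (2 * x + 2 * ei x) ≤ 2 * (m * x) := by
    calc 2 * (2 * x + 2 * ei x) = 2 * (2 * ei x + x) + 2 * x := by ring
      _ ≤ m * (2 * x) := h1
      _ = 2 * (m * x) := by ring
  have h3 : 2 * x + 2 * ei x ≤ m * x := by omega
  exact_mod_cast h3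

/-- The layer inequality for families that generate at most a third of the cube. -/
theorem layer {B : Finset (Finset α)} (hB : ∀ S ∈ B, ∀ T ∈ B, S ∪ T ∈ B)
    {V : Finset α} (hBV : B ⊆ V.powerset) {H : Finset (Finset α)}
    (hH : ∀ T ∈ B, ∀ X, T ⊆ X → X ⊆ V → X ∈ H) (hHc : 3 * H.card ≤ 2 ^ V.card) (j : ℕ) :
    (3 - j) * (B.card : ℝ) - (H.card : ℝ) / 2 ^ j ≤ ∑ Y ∈ B, (2 * (Y.card : ℝ) - V.card) := by
  have h := layer_R hB hBV hH (R := 2) (fun x hx => ratio_two (by omega)) j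
  have h1 : (3 - j : ℝ) = 2 + 1 - j := by ring
  rw [h1]
  exact h

end Pool.Agent.H51.UC
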