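import Pool.Agent.H51.UC.Ga
import Pool.Agent.H54.Dense.Small

/-!
MP_75f39d_co, dense families: the chain of `Pool/Agent/H54/Dense/Chain.lean` with the layer inequality `layer`
(`Pool/Agent/H51/UC/Ga.lean`).  `V` has `n + 3` points and no core inside; peel three points.  For
union-closed `F ⊆ A` and `f = 1` if `∅ ∈ F`, else `0`, the last point dropped:
`8 D - 16 f - k9 n + 4 n (1 - f) ≤ 4 sg`.
-/

set_option autoImplicit false

namespace Pool.Agent.H51.UC

open Finset Pool.Agent.H28.DF Pool.Agent.H78.UC Pool.Agent.H54.Dense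

variable {α : Type*} [DecidableEq α]

/-- The constant of the chain. -/
def k9 (n : ℕ) : ℕ := 4 * ls n + 2 * qq n + qq (n + 1) + 2 * qq (n + 2)

/-- The layer inequality with `j = 1`, `j = 2` for a link. -/
theorem link9 {A F : Finset (Finset α)} (hF : UnC F) (hFA : F ⊆ A) {V : Finset α} {k : α}
    (h : 3 * (Hs A V k).card ≤ 2 ^ (V.erase k).card) :
    4 * ((lk (ins F V) k).card : ℤ) - ((Hs A V k).card : ℤ) ≤
      2 * sg (lk (ins F V) k) (V.erase k) ∧
    4 * ((lk (ins F V) k).card : ℤ) - ((Hs A V k).card : ℤ) ≤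
      4 * sg (lk (ins F V) k) (V.erase k) := by
  have h1 : ∀ Y ∈ Hs A V k, Y ⊆ V.erase k := fun Y hY => mem_powerset.1 (mem_filter.1 hY).1
  have h2 : ∀ Y ∈ Hs A V k, ∀ Z ⊆ V.erase k, Y ⊆ Z → Z ∈ Hs A V k := by
    intro Y hY Z hZ hYZ
    obtain ⟨_, T, hT, hkT, hTY⟩ := mem_filter.1 hY
    exact mem_filter.2 ⟨mem_powerset.2 hZ, T, hT, hkT, hTY.trans (insert_subset_insert k hYZ)⟩
  have h3 : lk (ins F V) k ⊆ Hs A V k := DFb_lk_sub hFA V k
  have h4 : UnC (lk (ins F V) k) := DFb_lk_unc hF V k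
  have h5 : ∀ T ∈ lk (ins F V) k, T ⊆ V.erase k := fun T hT => h1 T (h3 hT)
  have h6 := fun j : ℕ => layer h4 (V := V.erase k) (fun T hT => mem_powerset.2 (h5 T hT))
    (H := Hs A V k) (fun T hT X hTX hX => h2 T (h3 hT) X hX hTX) h j
  have h7 := sg_sum h5
  have h8 : ((sg (lk (ins F V) k) (V.erase k) : ℤ) : ℝ) =
      ∑ Y ∈ lk (ins F V) k, (2 * (Y.card : ℝ) - (V.erase k).card) := by
    rw [h7]
    push_cast
    rfl
  have h9 := h6 1
  have h10 := h6 2
  rw [← h8] at h9 h10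
  constructor
  · have h11 : (4 : ℝ) * ((lk (ins F V) k).card : ℝ) - ((Hs A V k).card : ℝ) ≤
        2 * ((sg (lk (ins F V) k) (V.erase k) : ℤ) : ℝ) := by
      norm_num at h9
      linarith
    exact_mod_cast h11
  · have h11 : (4 : ℝ) * ((lk (ins F V) k).card : ℝ) - ((Hs A V k).card : ℝ) ≤
        4 * ((sg (lk (ins F V) k) (V.erase k) : ℤ) : ℝ) := by
      norm_num at h10
      linarith
    exact_mod_cast h11

/-- The chain. -/
theorem chain9 {A : Finset (Finset α)} (h0 : ∅ ∈ A) {V : Finset α} (hV : ∀ S ⊆ V, ¬ IsCore A S)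
    {n : ℕ} (hn : V.card = n + 3) : ∃ k ∈ V, ∀ F : Finset (Finset α), UnC F → F ⊆ A →
      8 * ((ins F V).card : ℤ) - 16 * (if ∅ ∈ F then 1 else 0) - (k9 n : ℤ) +
        4 * (n : ℤ) * (1 - (if ∅ ∈ F then 1 else 0)) ≤ 4 * sg (ins F V) (V.erase k) := by
  obtain ⟨k3, hk3, l3, q3, c3⟩ := exists_peel hn (hV V (Subset.refl V))
  have s2 : V.erase k3 ⊆ V := erase_subset _ _
  obtain ⟨k2, hk2, l2, q2, c2⟩ := exists_peel c3 (hV _ s2)
  have s1 : (V.erase k3).erase k2 ⊆ V := (erase_subset _ _).trans s2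
  obtain ⟨k1, hk1, l1, q1, c1⟩ := exists_peel c2 (hV _ s1)
  have s0 : ((V.erase k3).erase k2).erase k1 ⊆ V := (erase_subset _ _).trans s1
  refine ⟨k3, hk3, fun F hF hFA => ?_⟩
  obtain ⟨-, -, x⟩ := coreless h0 hF hFA _ fun S hS => hV S (hS.trans s0)
  rw [c1] at x
  have a1 := card_ins (F := F) hk1
  have a2 := card_ins (F := F) hk2
  have a3 := card_ins (F := F) hk3
  have b1 := (link9 hF hFA (by rw [c1]; exact l1.le)).1
  have b2 := (link9 hF hFA (by rw [c2]; exact l2.le)).2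
  have b3 := (link9 hF hFA (by rw [c3]; exact l3.le)).1
  have d1 := Pool.Agent.H54.Dense.split_sum (F := F) hk1
  have d2 := Pool.Agent.H54.Dense.split_sum (F := F) hk2
  have d3 := Pool.Agent.H54.Dense.split_sum (F := F) hk3
  have e1 := Pool.Agent.H54.Dense.split_all (F := F) hk1
  have e2 := Pool.Agent.H54.Dense.split_all (F := F) hk2
  have q1' : ((Hs A ((V.erase k3).erase k2) k1).card : ℤ) ≤ (qq n : ℤ) := by exact_mod_cast q1
  have q2' : ((Hs A (V.erase k3) k2).card : ℤ) ≤ (qq (n + 1) : ℤ) := by exact_mod_cast q2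
  have q3' : ((Hs A V k3).card : ℤ) ≤ (qq (n + 2) : ℤ) := by exact_mod_cast q3
  zify at a1 a2 a3
  have hk : (k9 n : ℤ) = 4 * (ls n : ℤ) + 2 * (qq n : ℤ) + (qq (n + 1) : ℤ) + 2 * (qq (n + 2) : ℤ) := by
    unfold k9
    push_cast
    ring
  rw [hk]
  linarith

theorem k9_lt {n : ℕ} (hn : 5 ≤ n) : 3 * (k9 n + 16) < 20 * 2 ^ n := by
  have h1 := ls_le hn
  have h2 := qq_le n
  have h3 := qq_le (n + 1)
  have h4 := qq_le (n + 2)
  have h5 : 2 ^ (n + 1) = 2 * 2 ^ n := by rw [pow_succ]; ring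
  have h6 : 2 ^ (n + 2) = 4 * 2 ^ n := by rw [pow_add]; ring
  unfold k9
  omega

end Pool.Agent.H51.UC
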