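import Pool.Agent.H28.DF.Dj
import Pool.Agent.H51.UC.Gb

/-!
# MP_75f39d_co, DenseFamilies: density `5 / 48`

Copy of `Pool/Agent/H28/DF/Dj.lean` with the chain `chain9` of `Pool/Agent/H51/UC/Gb.lean`.
-/

set_option autoImplicit false

namespace Pool.Agent.H51.UC

open Finset Pool.Agent.H28.DF Pool.Agent.H78.UC

variable {α : Type*} [DecidableEq α]

/-- The sum over the traces. -/
theorem trace9 {A : Finset (Finset α)} (hA : UnC A) (h0 : ∅ ∈ A) (hfr : ∀ x, 2 * fr A x ≤ A.card) {R : Finset α}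
    (hd : Disjoint (sm A) R) (hU : ∀ T ∈ A, T ⊆ sm A ∪ R) (hRA : R ∈ A) (h5 : 5 ≤ R.card) :
    48 * A.card < 5 * 2 ^ ((sm A).card + R.card) := by
  have hM : ∀ T ∈ A, T \ sm A ∈ A := fun T hT => sdiff_sm hA hfr hT
  have hnc := no_core hA h0 hfr hd
  have h1 := dec_card hd hU hM
  have h7 : ((sm A).powerset.card : ℤ) = 2 ^ (sm A).card := by
    rw [card_powerset]; push_cast; rfl
  have hq : (0 : ℤ) < 2 ^ (sm A).card := by positivity
  have hlow : ∀ W, (R.card = 5 → ((rw A R W).card : ℤ) - 2 ≤ sg (rw A R W) R) ∧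
      (R.card = 6 → 2 * ((rw A R W).card : ℤ) - 12 ≤ sg (rw A R W) R) ∧
      (R.card = 7 → ((rw A R W).card : ℤ) - 12 ≤ sg (rw A R W) R) := by
    intro W
    refine Pool.Agent.H54.Dense.low567 hnc (three_le hnc) rw_sub ?_ ?_
    · intro T hT
      rw [rw, mem_filter] at hT
      exact hT.2.1
    · rintro ⟨T, hT⟩
      rw [rw, mem_filter] at hT
      rw [rw, mem_filter]
      refine ⟨hRA, Subset.refl _, ?_⟩
      have := hA R hRA _ hT.2.2
      rwa [← union_assoc, union_eq_left.mpr hT.2.1] at this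
  have hAz : (A.card : ℤ) = ∑ W ∈ (sm A).powerset, ((rw A R W).card : ℤ) := by rw [h1]; push_cast; rfl
  by_contra hlt
  rw [not_lt, pow_add] at hlt
  have hlt' : 5 * ((2 : ℤ) ^ (sm A).card * 2 ^ R.card) ≤ 48 * (A.card : ℤ) := by exact_mod_cast hlt
  have h3 := sg_nonpos hfr R
  rw [dec_sg hd hU hM] at h3
  have h8 : R.card = 5 ∨ R.card = 6 ∨ R.card = 7 ∨ 8 ≤ R.card := by omega
  rcases h8 with h8 | h8 | h8 | h8
  · have h9 := sum_le_sum fun W (_ : W ∈ (sm A).powerset) => (hlow W).1 h8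
    rw [sum_sub_distrib, sum_const, nsmul_eq_mul, h7, ← hAz] at h9
    rw [h8] at hlt'
    norm_num at hlt'
    linarith
  · have h9 := sum_le_sum fun W (_ : W ∈ (sm A).powerset) => (hlow W).2.1 h8
    rw [sum_sub_distrib, ← mul_sum, sum_const, nsmul_eq_mul, h7, ← hAz] at h9
    rw [h8] at hlt'
    norm_num at hlt'
    linarith
  · have h9 := sum_le_sum fun W (_ : W ∈ (sm A).powerset) => (hlow W).2.2 h8
    rw [sum_sub_distrib, sum_const, nsmul_eq_mul, h7, ← hAz] at h9
    rw [h8] at hlt'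
    norm_num at hlt'
    linarith
  · obtain ⟨n, hn⟩ : ∃ n, R.card = n + 3 := ⟨R.card - 3, by omega⟩
    have hn5 : 5 ≤ n := by omega
    obtain ⟨k, hk, hch⟩ := chain9 h0 hnc hn
    have h3' := sg_nonpos hfr (R.erase k)
    rw [dec_sg' hd hU hM (erase_subset _ _)] at h3'
    have h4 : ∀ W ∈ (sm A).powerset, 8 * ((rw A R W).card : ℤ) - (16 + (k9 n : ℤ)) ≤
        4 * sg (rw A R W) (R.erase k) := by
      intro W _
      have h := hch (rw A R W) (rw_unC hA) rw_sub
      rw [ins_rw] at h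
      refine le_trans ?_ h
      by_cases hW : ∅ ∈ rw A R W
      · rw [if_pos hW]; linarith
      · rw [if_neg hW]
        have : (0 : ℤ) ≤ (n : ℤ) := by positivity
        linarith
    have h5' := sum_le_sum h4
    rw [← mul_sum, sum_sub_distrib, ← mul_sum, sum_const, nsmul_eq_mul, h7, ← hAz] at h5'
    have h6 : 3 * ((k9 n : ℤ) + 16) < 20 * 2 ^ n := by exact_mod_cast k9_lt hn5
    rw [hn, pow_add] at hlt'
    norm_num at hlt'
    have h9 : (2 : ℤ) ^ (sm A).card * (3 * (16 + (k9 n : ℤ))) < 2 ^ (sm A).card * (20 * 2 ^ n) :=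
      mul_lt_mul_of_pos_left (by linarith) hq
    linarith

theorem strict9_0 {A : Finset (Finset α)} (hA : UnC A) (h0 : ∅ ∈ A)
    (hsep : ∀ x ∈ A.sup id, ∀ y ∈ A.sup id, x ≠ y → ∃ T ∈ A, ¬ (x ∈ T ↔ y ∈ T))
    (hpow : A ≠ (A.sup id).powerset) (hd : 5 * 2 ^ (A.sup id).card ≤ 48 * A.card) :
    ∃ x ∈ A.sup id, A.card < 2 * fr A x := by
  by_contra hcon
  have hfr : ∀ x, 2 * fr A x ≤ A.card := by
    intro x
    by_cases hx : x ∈ A.sup id
    · by_contra hlt
      exact hcon ⟨x, hx, by omega⟩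
    · have : fr A x = 0 := by
        rw [fr, card_eq_zero, filter_eq_empty_iff]
        intro T hT hxT
        exact hx ((Finset.le_sup (f := id) hT) hxT)
      omega
  obtain ⟨M, hMdef⟩ : ∃ M, M = sm A := ⟨_, rfl⟩
  obtain ⟨U, hUdef⟩ : ∃ U, U = A.sup id := ⟨_, rfl⟩
  obtain ⟨R, hRdef⟩ : ∃ R, R = U \ M := ⟨_, rfl⟩
  have hMU : M ⊆ U := by rw [hMdef, hUdef]; exact sm_sub
  have hTU : ∀ T ∈ A, T ⊆ U := fun T hT => by rw [hUdef]; exact Finset.le_sup (f := id) hT
  have hdis : Disjoint (sm A) R := by rw [hRdef, ← hMdef]; exact disjoint_sdiff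
  have hMR : ∀ T ∈ A, T ⊆ sm A ∪ R := by
    intro T hT
    rw [hRdef, ← hMdef, union_sdiff_of_subset hMU]
    exact hTU T hT
  have hcard : U.card = M.card + R.card := by
    rw [hRdef, card_sdiff_of_subset hMU]
    have := card_le_card hMU
    omega
  have hUA : U ∈ A := by rw [hUdef]; exact top_mem hA h0
  have hRA : R ∈ A := by rw [hRdef, hMdef]; exact sdiff_sm hA hfr hUA
  have hsd : ∀ T ∈ A, T \ M ∈ ins A R := by
    intro T hT
    rw [ins, mem_filter]
    refine ⟨by rw [hMdef]; exact sdiff_sm hA hfr hT, ?_⟩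
    rw [hRdef]
    exact sdiff_subset_sdiff (hTU T hT) (Subset.refl _)
  have hnc := no_core hA h0 hfr hdis
  -- separation inside `R`
  have hsepR : ∀ x ∈ R, ∀ y ∈ R, x ≠ y → ∃ T ∈ ins A R, ¬ (x ∈ T ↔ y ∈ T) := by
    intro x hx y hy hxy
    have hxU : x ∈ U \ M := hRdef ▸ hx
    have hyU : y ∈ U \ M := hRdef ▸ hy
    rw [mem_sdiff] at hxU hyU
    obtain ⟨T, hT, h⟩ := hsep x (hUdef ▸ hxU.1) y (hUdef ▸ hyU.1) hxy
    refine ⟨T \ M, hsd T hT, ?_⟩
    rw [mem_sdiff, mem_sdiff]
    simpa [hxU.2, hyU.2] using h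
  rcases R.eq_empty_or_nonempty with hRe | hRne
  · have hMU' : M = U := by
      apply Subset.antisymm hMU
      rw [← sdiff_eq_empty_iff_subset, ← hRdef, hRe]
    by_cases hall : ∀ a ∈ M, {a} ∈ A
    · -- `A` is a power set
      apply hpow
      have hN : ∀ N : Finset α, N ⊆ M → N ∈ A := by
        intro N
        induction N using Finset.induction_on with
        | empty => intro _; exact h0
        | insert a N ha ih =>
          intro h
          rw [insert_eq]
          exact hA _ (hall a (h (mem_insert_self _ _))) _ (ih fun x hx => h (mem_insert_of_mem hx))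
      rw [← hUdef]
      ext T
      rw [mem_powerset]
      exact ⟨fun h => hTU T h, fun h => hN T (hMU' ▸ h)⟩
    · push Not at hall
      obtain ⟨a, haM, haA⟩ := hall
      have hpair : ∃ b, a ≠ b ∧ ({a, b} : Finset α) ∈ A := by
        have haM' := haM
        rw [hMdef, sm, Finset.mem_sup] at haM'
        obtain ⟨T, hT, haT⟩ := haM'
        rw [mem_filter] at hT
        rw [id] at haT
        have hc1 : T.card ≠ 1 := by
          intro h1
          rw [card_eq_one] at h1
          obtain ⟨c, hc⟩ := h1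
          rw [hc, mem_singleton] at haT
          subst haT
          exact haA (hc ▸ hT.1)
        have hc0 : T.card ≠ 0 := by
          rw [Ne, card_eq_zero]
          rintro rfl
          simp at haT
        have hc2 : T.card = 2 := by omega
        rw [card_eq_two] at hc2
        obtain ⟨c, d, hcd, hTcd⟩ := hc2
        rw [hTcd, mem_insert, mem_singleton] at haT
        rcases haT with rfl | rfl
        · exact ⟨d, hcd, hTcd ▸ hT.1⟩
        · refine ⟨c, hcd.symm, ?_⟩
          rw [pair_comm]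
          exact hTcd ▸ hT.1
      obtain ⟨b, hab, habA⟩ := hpair
      have hbM : b ∈ M := by
        rw [hMdef, sm, Finset.mem_sup]
        exact ⟨{a, b}, by rw [mem_filter]; exact ⟨habA, card_le_two⟩, by simp⟩
      obtain ⟨T, hT, h⟩ := hsep a (hUdef ▸ hMU haM) b (hUdef ▸ hMU hbM) hab
      exact h (twins hA hfr hab habA haA hT (hMdef ▸ hMU' ▸ hTU T hT))
  · have h3 := three_le_card hRA hnc hRne
    by_cases h5 : 5 ≤ R.card
    · have h := trace9 hA h0 hfr hdis hMR hRA h5
      rw [← hMdef, ← hcard, hUdef] at h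
      omega
    · obtain ⟨x, hx, y, hy, hxy, h⟩ := Pool.Agent.H54.Dense.twins4 hnc (three_le hnc) (by omega)
      obtain ⟨T, hT, h'⟩ := hsepR x hx y hy hxy
      exact h' (h T hT)

theorem weak9_0 {A : Finset (Finset α)} (hA : UnC A) (h0 : ∅ ∈ A) (hne : ∃ T ∈ A, T.Nonempty)
    (hd : 5 * 2 ^ (A.sup id).card ≤ 48 * A.card) : ∃ x ∈ A.sup id, A.card ≤ 2 * fr A x := by
  by_contra hcon
  have hlt : ∀ x ∈ A.sup id, 2 * fr A x < A.card := by
    intro x hx
    by_contra hlt
    exact hcon ⟨x, hx, by omega⟩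
  obtain ⟨U, hUdef⟩ : ∃ U, U = A.sup id := ⟨_, rfl⟩
  rw [← hUdef] at hlt hd
  have hTU : ∀ T ∈ A, T ⊆ U := fun T hT => by rw [hUdef]; exact Finset.le_sup (f := id) hT
  have hneg : ∀ S ⊆ U, S.Nonempty → sg A S < 0 := by
    intro S hS hSne
    refine sum_neg (fun x hx => ?_) hSne
    have := hlt x (hS hx)
    omega
  have hnc : ∀ S ⊆ U, ¬ IsCore A S := by
    intro S hS hc
    have h := core_sum hA hc
    have h2 := hneg S hS hc.1
    omega
  have hins : ins A U = A := by
    rw [ins]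
    exact filter_true_of_mem fun T hT => hTU T hT
  have hUA : U ∈ A := by rw [hUdef]; exact top_mem hA h0
  have hUne : U.Nonempty := by
    obtain ⟨T, hT, hTne⟩ := hne
    exact hTne.mono (hTU T hT)
  have h3 := three_le_card hUA hnc hUne
  have h3A : ∀ T ∈ A, T.Nonempty → 3 ≤ T.card := by
    intro T hT
    exact three_le hnc T (hins.symm ▸ hT)
  have hsg := hneg U (Subset.refl _) hUne
  have h8 : (U.card = 3 ∨ U.card = 4) ∨ U.card = 5 ∨ U.card = 6 ∨ U.card = 7 ∨ 8 ≤ U.card := by omega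
  have hlow := Pool.Agent.H54.Dense.low567 hnc (three_le hnc) (Subset.refl A) hTU (fun _ => hUA)
  rcases h8 with h8 | h8 | h8 | h8 | h8
  · -- few points
    rw [Pool.Agent.H54.Dense.sg_sum hTU] at hsg
    have h00 : (∅ : Finset α) ≠ U := hUne.ne_empty.symm
    have h1 : ∀ T ∈ A, (if T = ∅ then -(U.card : ℤ) else 0) + (if T = U then (U.card : ℤ) else 0) ≤
        2 * (T.card : ℤ) - (U.card : ℤ) := by
      intro T hT
      rcases T.eq_empty_or_nonempty with hT0 | hT0
      · rw [hT0, if_pos rfl, if_neg h00]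
        simp
      · have h4 := h3A T hT hT0
        rw [if_neg hT0.ne_empty]
        by_cases h5 : T = U
        · rw [if_pos h5, h5]; linarith
        · rw [if_neg h5]
          omega
    have h2 := sum_le_sum h1
    rw [sum_add_distrib, sum_ite_eq', sum_ite_eq', if_pos h0, if_pos hUA] at h2
    linarith
  · have h9 := hlow.1 h8
    rw [h8] at hd
    norm_num at hd
    omega
  · have h9 := hlow.2.1 h8
    rw [h8] at hd
    norm_num at hd
    omega
  · have h9 := hlow.2.2 h8
    rw [h8] at hd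
    norm_num at hd
    omega
  · obtain ⟨n, hn⟩ : ∃ n, U.card = n + 3 := ⟨U.card - 3, by omega⟩
    have hn5 : 5 ≤ n := by omega
    obtain ⟨k, hk, hch⟩ := chain9 h0 hnc hn
    have h := hch A hA (Subset.refl _)
    rw [hins, if_pos h0] at h
    have hne' : (U.erase k).Nonempty := by
      rw [← card_pos, card_erase_of_mem hk]
      omega
    have h2 := hneg _ (erase_subset k U) hne'
    have h6 := k9_lt hn5
    rw [hn, pow_add] at hd
    norm_num at hd
    have h7 : (n : ℤ) * (1 - 1) = 0 := by ring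
    omega

/-- A union-closed family with a nonempty member and at least `5 / 48` of all subsets has a point in at least half of the members. -/
theorem dense9_weak {A : Finset (Finset α)} (hA : UnC A) (hne : ∃ T ∈ A, T.Nonempty) (hd : 5 * 2 ^ (A.sup id).card ≤ 48 * A.card) :
    ∃ x ∈ A.sup id, A.card ≤ 2 * fr A x := by
  have h := weak9_0 (insert_unC hA) (mem_insert_self _ _)
    (by obtain ⟨T, hT, h⟩ := hne; exact ⟨T, mem_insert_of_mem hT, h⟩)
    (by rw [insert_sup]; exact hd.trans (Nat.mul_le_mul_left 48 (card_le_card (subset_insert _ _))))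
  rw [insert_sup] at h
  obtain ⟨x, hx, h⟩ := h
  rw [insert_fr] at h
  exact ⟨x, hx, le_trans (card_le_card (subset_insert _ _)) h⟩

/-- A separating union-closed family that is no power set, with at least `5 / 48` of all subsets, has a point in
more than half of the members. -/
theorem dense9_strict {A : Finset (Finset α)} (hA : UnC A) (hne : A.Nonempty)
    (hsep : ∀ x ∈ A.sup id, ∀ y ∈ A.sup id, x ≠ y → ∃ T ∈ A, ¬ (x ∈ T ↔ y ∈ T))
    (hpow : A ≠ (A.sup id).powerset) (hd : 5 * 2 ^ (A.sup id).card ≤ 48 * A.card) : ∃ x ∈ A.sup id, A.card < 2 * fr A x := by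
  by_cases h0 : ∅ ∈ A
  · exact strict9_0 hA h0 hsep hpow hd
  by_cases hp : insert ∅ A = (A.sup id).powerset
  · exact power_erase hne h0 hp
  · have h := strict9_0 (insert_unC hA) (mem_insert_self _ _)
      (by
        rw [insert_sup]
        intro x hx y hy hxy
        obtain ⟨T, hT, h⟩ := hsep x hx y hy hxy
        exact ⟨T, mem_insert_of_mem hT, h⟩)
      (by rw [insert_sup]; exact hp)
      (by rw [insert_sup]; exact hd.trans (Nat.mul_le_mul_left 48 (card_le_card (subset_insert _ _))))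
    rw [insert_sup] at h
    obtain ⟨x, hx, h⟩ := h
    rw [insert_fr] at h
    exact ⟨x, hx, lt_of_le_of_lt (card_le_card (subset_insert _ _)) h⟩

end Pool.Agent.H51.UC
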