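import Mathlib

/-!
MP_75f39d_co, theorem T5*: up-edges that leave a subfamily of a down-set.

`bd V X` is the set of pairs `(Y, j)` with `Y ∈ X`, `j ∈ V ∖ Y` and `Y ∪ {j} ∉ X`.

`min_down`: let `D` be a down-set of subsets of `V` and `c ≥ 0` a real number with
`c |X| ≤ |bd V X|` for every down-set `X ⊆ D`.  Then the inequality holds for every `X ⊆ D`.

Proof.  Let `X ⊆ D` be a minimiser of `|bd V X| - c |X|`, as large as possible.  For `k ∈ V` let
`A = up k X` be `X` with all `Y`, `k ∉ Y`, `Y ∪ {k} ∈ X`, and `B = lo k X` be `X` without the `Y`, `k ∈ Y`,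
`Y ∖ {k} ∉ X`.  Then `|A| + |B| = 2 |X|` and `|bd A| + |bd B| ≤ 2 |bd X|` (for each direction `j` and each
square in the directions `j`, `k`).  So `A` is a minimiser as well and `A = X`.  Hence `X` is a down-set.
-/

set_option autoImplicit false

namespace Pool.Agent.H51.UC

open Finset

variable {α : Type*} [DecidableEq α]

/-- The up-edges that leave `X`. -/
def bd (V : Finset α) (X : Finset (Finset α)) : Finset (Finset α × α) :=
  (X ×ˢ V).filter fun e => e.2 ∉ e.1 ∧ insert e.2 e.1 ∉ X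

theorem mem_bd {V : Finset α} {X : Finset (Finset α)} {e : Finset α × α} :
    e ∈ bd V X ↔ (e.1 ∈ X ∧ e.2 ∈ V) ∧ e.2 ∉ e.1 ∧ insert e.2 e.1 ∉ X := by
  rw [bd, mem_filter, mem_product]

/-- The number of up-edges in direction `j` that leave `X`. -/
def bj (V : Finset α) (X : Finset (Finset α)) (j : α) : ℕ :=
  ∑ Y ∈ (V.erase j).powerset, if Y ∈ X ∧ insert j Y ∉ X then 1 else 0

theorem card_bd {V : Finset α} {X : Finset (Finset α)} (hX : X ⊆ V.powerset) :
    (bd V X).card = ∑ j ∈ V, bj V X j := by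
  have h1 : (bd V X).card = ∑ j ∈ V, ((bd V X).filter (fun e => e.2 = j)).card :=
    card_eq_sum_card_fiberwise (f := fun e : Finset α × α => e.2)
      (fun e he => (mem_bd.1 he).1.2)
  rw [h1]
  refine sum_congr rfl fun j hj => ?_
  rw [bj, ← card_filter]
  refine card_bij' (fun e _ => e.1) (fun Y _ => (Y, j)) ?_ ?_ ?_ ?_
  · intro e he
    rw [mem_filter, mem_bd] at he
    obtain ⟨⟨⟨h1, h2⟩, h3, h4⟩, h5⟩ := he
    rw [h5] at h3 h4
    rw [mem_filter, mem_powerset]
    exact ⟨subset_erase.2 ⟨mem_powerset.1 (hX h1), h3⟩, h1, h4⟩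
  · intro Y hY
    rw [mem_filter, mem_powerset] at hY
    rw [mem_filter, mem_bd]
    exact ⟨⟨⟨hY.2.1, hj⟩, (subset_erase.1 hY.1).2, hY.2.2⟩, rfl⟩
  · intro e he
    rw [mem_filter] at he
    exact Prod.ext rfl he.2.symm
  · intro Y _
    rfl

/-- `X` together with the `Y`, `k ∉ Y`, `Y ∪ {k} ∈ X`. -/
def up (k : α) (X : Finset (Finset α)) : Finset (Finset α) :=
  X ∪ (X.filter fun Y => k ∈ Y).image fun Y => Y.erase k

/-- `X` without the `Y`, `k ∈ Y`, `Y ∖ {k} ∉ X`. -/
def lo (k : α) (X : Finset (Finset α)) : Finset (Finset α) :=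
  X.filter fun Y => k ∉ Y ∨ Y.erase k ∈ X

theorem mem_up {k : α} {X : Finset (Finset α)} {Y : Finset α} :
    Y ∈ up k X ↔ Y ∈ X ∨ (k ∉ Y ∧ insert k Y ∈ X) := by
  rw [up, mem_union, mem_image]
  constructor
  · rintro (h | ⟨Z, hZ, rfl⟩)
    · exact Or.inl h
    · rw [mem_filter] at hZ
      exact Or.inr ⟨notMem_erase k Z, by rw [insert_erase hZ.2]; exact hZ.1⟩
  · rintro (h | ⟨h1, h2⟩)
    · exact Or.inl h
    · exact Or.inr ⟨insert k Y, mem_filter.2 ⟨h2, mem_insert_self k Y⟩, erase_insert h1⟩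

theorem mem_up0 {k : α} {X : Finset (Finset α)} {Y : Finset α} (hk : k ∉ Y) :
    Y ∈ up k X ↔ Y ∈ X ∨ insert k Y ∈ X := by
  rw [mem_up]
  simp [hk]

theorem mem_up1 {k : α} {X : Finset (Finset α)} {Y : Finset α} :
    insert k Y ∈ up k X ↔ insert k Y ∈ X := by
  rw [mem_up]
  simp

theorem mem_lo0 {k : α} {X : Finset (Finset α)} {Y : Finset α} (hk : k ∉ Y) :
    Y ∈ lo k X ↔ Y ∈ X := by
  rw [lo, mem_filter]
  simp [hk]

theorem mem_lo1 {k : α} {X : Finset (Finset α)} {Y : Finset α} (hk : k ∉ Y) :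
    insert k Y ∈ lo k X ↔ Y ∈ X ∧ insert k Y ∈ X := by
  rw [lo, mem_filter, erase_insert hk]
  simp [and_comm]

theorem split_sum {V : Finset α} {k : α} (hk : k ∈ V) (f : Finset α → ℕ) :
    ∑ Z ∈ V.powerset, f Z = ∑ Z ∈ (V.erase k).powerset, (f Z + f (insert k Z)) := by
  conv_lhs => rw [← insert_erase hk]
  rw [sum_powerset_insert (notMem_erase k V), ← sum_add_distrib]

theorem card_ind {V : Finset α} {X : Finset (Finset α)} (hX : X ⊆ V.powerset) :
    X.card = ∑ Y ∈ V.powerset, if Y ∈ X then 1 else 0 := by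
  rw [← card_filter]
  congr 1
  ext Y
  rw [mem_filter]
  exact ⟨fun h => ⟨hX h, h⟩, fun h => h.2⟩

theorem up_sub {V : Finset α} {k : α} {X : Finset (Finset α)} (hX : X ⊆ V.powerset) :
    up k X ⊆ V.powerset := by
  intro Y hY
  rw [mem_up] at hY
  rcases hY with h | h
  · exact hX h
  · exact mem_powerset.2 ((subset_insert k Y).trans (mem_powerset.1 (hX h.2)))

theorem lo_sub {k : α} {X : Finset (Finset α)} : lo k X ⊆ X := filter_subset _ _

theorem card_up_lo {V : Finset α} {k : α} (hk : k ∈ V) {X : Finset (Finset α)}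
    (hX : X ⊆ V.powerset) : (up k X).card + (lo k X).card = 2 * X.card := by
  rw [card_ind (up_sub hX), card_ind (lo_sub.trans hX), card_ind hX, split_sum hk, split_sum hk,
    split_sum hk, ← sum_add_distrib, mul_sum]
  refine sum_congr rfl fun Y hY => ?_
  have hkY : k ∉ Y := (subset_erase.1 (mem_powerset.1 hY)).2
  simp only [mem_up0 hkY, mem_up1, mem_lo0 hkY, mem_lo1 hkY]
  by_cases h1 : Y ∈ X <;> by_cases h2 : insert k Y ∈ X <;> simp [h1, h2]

theorem bj_same {V : Finset α} (k : α) (X : Finset (Finset α)) :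
    bj V (up k X) k = bj V X k ∧ bj V (lo k X) k = bj V X k := by
  constructor
  · refine sum_congr rfl fun Y hY => ?_
    have hkY : k ∉ Y := (subset_erase.1 (mem_powerset.1 hY)).2
    simp only [mem_up0 hkY, mem_up1]
    by_cases h1 : Y ∈ X <;> by_cases h2 : insert k Y ∈ X <;> simp [h1, h2]
  · refine sum_congr rfl fun Y hY => ?_
    have hkY : k ∉ Y := (subset_erase.1 (mem_powerset.1 hY)).2
    simp only [mem_lo0 hkY, mem_lo1 hkY]
    by_cases h1 : Y ∈ X <;> by_cases h2 : insert k Y ∈ X <;> simp [h1, h2]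

theorem bj_le {V : Finset α} {j k : α} (hjk : j ≠ k) (hk : k ∈ V) (X : Finset (Finset α)) :
    bj V (up k X) j + bj V (lo k X) j ≤ 2 * bj V X j := by
  have hk' : k ∈ V.erase j := mem_erase.2 ⟨hjk.symm, hk⟩
  unfold bj
  rw [split_sum hk', split_sum hk', split_sum hk', ← sum_add_distrib, mul_sum]
  refine sum_le_sum fun Y hY => ?_
  have hkY : k ∉ Y := (subset_erase.1 (mem_powerset.1 hY)).2
  have hkj : k ∉ insert j Y := by
    rw [mem_insert, not_or]
    exact ⟨hjk.symm, hkY⟩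
  have hc : insert j (insert k Y) = insert k (insert j Y) := Finset.insert_comm j k Y
  simp only [hc, mem_up0 hkY, mem_up1, mem_lo0 hkY, mem_lo1 hkY, mem_up0 hkj, mem_lo0 hkj,
    mem_lo1 hkj]
  by_cases h1 : Y ∈ X <;> by_cases h2 : insert k Y ∈ X <;> by_cases h3 : insert j Y ∈ X <;>
    by_cases h4 : insert k (insert j Y) ∈ X <;> simp [h1, h2, h3, h4]

theorem bd_up_lo {V : Finset α} {k : α} (hk : k ∈ V) {X : Finset (Finset α)}
    (hX : X ⊆ V.powerset) :
    (bd V (up k X)).card + (bd V (lo k X)).card ≤ 2 * (bd V X).card := by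
  rw [card_bd (up_sub hX), card_bd (lo_sub.trans hX), card_bd hX, ← sum_add_distrib, mul_sum]
  refine sum_le_sum fun j _ => ?_
  by_cases hjk : j = k
  · rw [hjk, (bj_same k X).1, (bj_same k X).2, two_mul]
  · exact bj_le hjk hk X

/-- Down-closed families. -/
def Down (D : Finset (Finset α)) : Prop := ∀ Y ∈ D, ∀ Z ⊆ Y, Z ∈ D

theorem min_down {V : Finset α} {D : Finset (Finset α)} (hDV : D ⊆ V.powerset) (hD : Down D)
    {c : ℝ} (h : ∀ X ⊆ D, Down X → c * (X.card : ℝ) ≤ ((bd V X).card : ℝ))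
    {X : Finset (Finset α)} (hX : X ⊆ D) : c * (X.card : ℝ) ≤ ((bd V X).card : ℝ) := by
  obtain ⟨φ, hφ⟩ : ∃ φ : Finset (Finset α) → ℝ, φ = fun X => ((bd V X).card : ℝ) - c * X.card :=
    ⟨_, rfl⟩
  obtain ⟨X0, hX0, hmin⟩ := exists_min_image D.powerset φ ⟨∅, empty_mem_powerset D⟩
  obtain ⟨X1, hX1, hmax⟩ := exists_max_image (D.powerset.filter (fun X => φ X = φ X0))
    (fun X => X.card) ⟨X0, mem_filter.2 ⟨hX0, rfl⟩⟩
  rw [mem_filter, mem_powerset] at hX1
  have hX1V : X1 ⊆ V.powerset := hX1.1.trans hDV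
  have hup : ∀ k ∈ V, up k X1 = X1 := by
    intro k hk
    have h1 := card_up_lo hk hX1V
    have h2 := bd_up_lo hk hX1V
    have h1' : ((up k X1).card : ℝ) + ((lo k X1).card : ℝ) = 2 * (X1.card : ℝ) := by
      exact_mod_cast h1
    have h2' : ((bd V (up k X1)).card : ℝ) + ((bd V (lo k X1)).card : ℝ) ≤
        2 * ((bd V X1).card : ℝ) := by exact_mod_cast h2
    have hA : up k X1 ⊆ D := by
      intro Y hY
      rw [mem_up] at hY
      rcases hY with h | h
      · exact hX1.1 h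
      · exact hD _ (hX1.1 h.2) _ (subset_insert k Y)
    have hB : lo k X1 ⊆ D := lo_sub.trans hX1.1
    have h3 := hmin _ (mem_powerset.2 hA)
    have h4 := hmin _ (mem_powerset.2 hB)
    have h5 : φ (up k X1) + φ (lo k X1) ≤ 2 * φ X1 := by
      rw [hφ]
      dsimp only
      have h6 : c * ((up k X1).card : ℝ) + c * ((lo k X1).card : ℝ) = 2 * (c * (X1.card : ℝ)) := by
        rw [← mul_add, h1']
        ring
      linarith
    have h7 : φ (up k X1) = φ X0 := by
      have h8 := hX1.2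
      linarith
    have h9 := hmax _ (mem_filter.2 ⟨mem_powerset.2 hA, h7⟩)
    have h10 : X1 ⊆ up k X1 := fun Y hY => mem_up.2 (Or.inl hY)
    exact (eq_of_subset_of_card_le h10 h9).symm
  have hdown : Down X1 := by
    have key : ∀ n : ℕ, ∀ Y ∈ X1, ∀ Z ⊆ Y, (Y \ Z).card = n → Z ∈ X1 := by
      intro n
      induction n with
      | zero =>
        intro Y hY Z hZ hc
        rw [card_eq_zero, sdiff_eq_empty_iff_subset] at hc
        rw [Subset.antisymm hZ hc]
        exact hY
      | succ n ih =>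
        intro Y hY Z hZ hc
        have hne : (Y \ Z).Nonempty := card_pos.1 (by omega)
        obtain ⟨k, hk⟩ := hne
        have hk' := mem_sdiff.1 hk
        have hkV : k ∈ V := mem_powerset.1 (hX1V hY) hk'.1
        have h1 : Y.erase k ∈ X1 := by
          rw [← hup k hkV, mem_up]
          right
          refine ⟨notMem_erase k Y, ?_⟩
          rw [insert_erase hk'.1]
          exact hY
        refine ih (Y.erase k) h1 Z (subset_erase.2 ⟨hZ, hk'.2⟩) ?_
        have h2 : Y.erase k \ Z = (Y \ Z).erase k := by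
          ext a
          simp only [mem_sdiff, mem_erase]
          tauto
        rw [h2, card_erase_of_mem hk, hc]
        rfl
    exact fun Y hY Z hZ => key _ Y hY Z hZ rfl
  have h1 := h X1 hX1.1 hdown
  have h2 := hmin X (mem_powerset.2 hX)
  have h3 := hX1.2
  rw [hφ] at h2 h3
  dsimp only at h2 h3
  linarith

end Pool.Agent.H51.UC
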