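import Pool.Agent.H51.UC.Ib
import Pool.Agent.H62.UC.La

/-!
MP_75f39d_co, theorem T5*: weighted form of `min_down`.

`wP V p X` is the mass of `X` for the product measure, `wB V p l X` the mass of the up-edges that leave `X`,
an edge `(Y, j)` having mass `l j * pm V p Y`.

With `A = up k X`, `B = lo k X` and `p = p k`: `p * wP A + (1 - p) * wP B = wP X`,
`p * wB A + (1 - p) * wB B ≤ wB X`.  So `A` is a minimiser of `wB - c * wP` if `X` is.
-/

set_option autoImplicit false

namespace Pool.Agent.H51.UC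

open Finset Pool.Agent.H62.UC

variable {α : Type*} [DecidableEq α]

/-- The mass of `X`. -/
noncomputable def wP (V : Finset α) (p : α → ℝ) (X : Finset (Finset α)) : ℝ :=
  ∑ Y ∈ X, pm V p Y

/-- The mass of the up-edges that leave `X`. -/
noncomputable def wB (V : Finset α) (p l : α → ℝ) (X : Finset (Finset α)) : ℝ :=
  ∑ Y ∈ X, ∑ j ∈ V with (j ∉ Y ∧ insert j Y ∉ X), l j * pm V p Y

/-- The mass of the up-edges in direction `j` that leave `X`. -/
noncomputable def wj (V : Finset α) (p : α → ℝ) (X : Finset (Finset α)) (j : α) : ℝ :=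
  ∑ Y ∈ (V.erase j).powerset, if Y ∈ X ∧ insert j Y ∉ X then pm V p Y else 0

theorem wB_eq {V : Finset α} {p l : α → ℝ} {X : Finset (Finset α)} (hX : X ⊆ V.powerset) :
    wB V p l X = ∑ j ∈ V, l j * wj V p X j := by
  unfold wB
  have h1 : ∀ Y ∈ X, ∑ j ∈ V with (j ∉ Y ∧ insert j Y ∉ X), l j * pm V p Y =
      ∑ j ∈ V, if j ∉ Y ∧ insert j Y ∉ X then l j * pm V p Y else 0 := fun Y _ => sum_filter _ _
  rw [sum_congr rfl h1, sum_comm]
  refine sum_congr rfl fun j hj => ?_
  unfold wj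
  rw [mul_sum, ← sum_filter]
  have h2 : ∑ Y ∈ (V.erase j).powerset, l j * (if Y ∈ X ∧ insert j Y ∉ X then pm V p Y else 0) =
      ∑ Y ∈ (V.erase j).powerset, if Y ∈ X ∧ insert j Y ∉ X then l j * pm V p Y else 0 := by
    refine sum_congr rfl fun Y _ => ?_
    split_ifs
    · rfl
    · rw [mul_zero]
  rw [h2, ← sum_filter]
  refine sum_congr ?_ fun _ _ => rfl
  ext Y
  rw [mem_filter, mem_filter, mem_powerset, subset_erase]
  constructor
  · rintro ⟨h3, h4, h5⟩
    exact ⟨⟨mem_powerset.1 (hX h3), h4⟩, h3, h5⟩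
  · rintro ⟨⟨_, h4⟩, h3, h5⟩
    exact ⟨h3, h4, h5⟩

theorem wP_ind {V : Finset α} {p : α → ℝ} {X : Finset (Finset α)} (hX : X ⊆ V.powerset) :
    wP V p X = ∑ Y ∈ V.powerset, pm V p Y * (if Y ∈ X then 1 else 0) := by
  have h1 : ∀ Y ∈ V.powerset, pm V p Y * (if Y ∈ X then (1 : ℝ) else 0) =
      if Y ∈ X then pm V p Y else 0 := by
    intro Y _
    split_ifs
    · rw [mul_one]
    · rw [mul_zero]
  rw [sum_congr rfl h1, ← sum_filter]
  refine sum_congr ?_ fun _ _ => rfl
  ext Y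
  rw [mem_filter]
  exact ⟨fun h => ⟨hX h, h⟩, fun h => h.2⟩

/-- The two values of the product measure over a point `k`. -/
theorem pm_two {V : Finset α} {p : α → ℝ} {k : α} (hk : k ∈ V) {Y : Finset α}
    (hY : Y ⊆ V.erase k) : pm V p Y = (1 - p k) * pm (V.erase k) p Y ∧
      pm V p (insert k Y) = p k * pm (V.erase k) p Y := by
  have h1 : insert k (V.erase k) = V := insert_erase hk
  have h2 := pm_insert (p := p) (notMem_erase k V) hY
  have h3 := pm_insert' (p := p) (notMem_erase k V) hY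
  rw [h1] at h2 h3
  exact ⟨h2, h3⟩

theorem wP_up_lo {V : Finset α} {p : α → ℝ} {k : α} (hk : k ∈ V) {X : Finset (Finset α)}
    (hX : X ⊆ V.powerset) :
    p k * wP V p (up k X) + (1 - p k) * wP V p (lo k X) = wP V p X := by
  rw [wP_ind (up_sub hX), wP_ind (lo_sub.trans hX), wP_ind hX, sum_powerset_split hk,
    sum_powerset_split hk, sum_powerset_split hk, mul_sum, mul_sum, ← sum_add_distrib]
  refine sum_congr rfl fun Y hY => ?_
  have hYs := mem_powerset.1 hY
  have hkY : k ∉ Y := (subset_erase.1 hYs).2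
  obtain ⟨e1, e2⟩ := pm_two (p := p) hk hYs
  rw [e1, e2]
  simp only [mem_up0 hkY, mem_up1, mem_lo0 hkY, mem_lo1 hkY]
  by_cases h1 : Y ∈ X <;> by_cases h2 : insert k Y ∈ X <;>
    simp only [h1, h2, if_true, if_false, or_true, or_false, and_true, and_false] <;> ring

theorem wj_same {V : Finset α} {p : α → ℝ} (k : α) (X : Finset (Finset α)) :
    wj V p (up k X) k = wj V p X k ∧ wj V p (lo k X) k = wj V p X k := by
  constructor
  · refine sum_congr rfl fun Y hY => ?_
    have hkY : k ∉ Y := (subset_erase.1 (mem_powerset.1 hY)).2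
    simp only [mem_up0 hkY, mem_up1]
    by_cases h1 : Y ∈ X <;> by_cases h2 : insert k Y ∈ X <;> simp [h1, h2]
  · refine sum_congr rfl fun Y hY => ?_
    have hkY : k ∉ Y := (subset_erase.1 (mem_powerset.1 hY)).2
    simp only [mem_lo0 hkY, mem_lo1 hkY]
    by_cases h1 : Y ∈ X <;> by_cases h2 : insert k Y ∈ X <;> simp [h1, h2]

private theorem alg {p q a0 a1 b0 b1 : ℝ} (hp : 0 ≤ p) (hp1 : p ≤ 1) (hq : 0 ≤ q)
    (h : a0 + b1 ≤ b0 + a1) :
    p * ((1 - p) * q * a0 + p * q * a1) + (1 - p) * ((1 - p) * q * b0 + p * q * b1) ≤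
      (1 - p) * q * b0 + p * q * a1 := by
  have h1 : 0 ≤ p * (1 - p) * q * (b0 + a1 - (a0 + b1)) :=
    mul_nonneg (mul_nonneg (mul_nonneg hp (by linarith)) hq) (by linarith)
  nlinarith [h1]

theorem wj_le {V : Finset α} {p : α → ℝ} (hp : ∀ j ∈ V, 0 < p j ∧ p j < 1) {j k : α}
    (hjk : j ≠ k) (hk : k ∈ V) (X : Finset (Finset α)) :
    p k * wj V p (up k X) j + (1 - p k) * wj V p (lo k X) j ≤ wj V p X j := by
  have hk' : k ∈ V.erase j := mem_erase.2 ⟨hjk.symm, hk⟩
  unfold wj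
  rw [sum_powerset_split hk', sum_powerset_split hk', sum_powerset_split hk', mul_sum, mul_sum,
    ← sum_add_distrib]
  refine sum_le_sum fun Y hY => ?_
  have hYs := mem_powerset.1 hY
  have hkY : k ∉ Y := (subset_erase.1 hYs).2
  have hYk : Y ⊆ V.erase k := subset_erase.2
    ⟨(subset_erase.1 hYs).1.trans (erase_subset j V), hkY⟩
  have hkj : k ∉ insert j Y := by
    rw [mem_insert, not_or]
    exact ⟨hjk.symm, hkY⟩
  have hc : insert j (insert k Y) = insert k (insert j Y) := Finset.insert_comm j k Y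
  obtain ⟨e1, e2⟩ := pm_two (p := p) hk hYk
  have hq : 0 ≤ pm (V.erase k) p Y := pm_nonneg (fun j hj => by
    have := hp j (mem_of_mem_erase hj)
    exact ⟨this.1.le, this.2.le⟩) hYk
  have hpk := hp k hk
  have hs : ∀ (P : Prop) [Decidable P] (w : ℝ), (if P then w else 0) = w * (if P then 1 else 0) := by
    intro P _ w
    split_ifs
    · rw [mul_one]
    · rw [mul_zero]
  simp only [hc, mem_up0 hkY, mem_up1, mem_lo0 hkY, mem_lo1 hkY, mem_up0 hkj, mem_lo0 hkj,
    mem_lo1 hkj]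
  rw [e1, e2]
  simp only [hs _ ((1 - p k) * pm (V.erase k) p Y), hs _ (p k * pm (V.erase k) p Y)]
  refine alg hpk.1.le hpk.2.le hq ?_
  by_cases h1 : Y ∈ X <;> by_cases h2 : insert k Y ∈ X <;> by_cases h3 : insert j Y ∈ X <;>
    by_cases h4 : insert k (insert j Y) ∈ X <;> simp [h1, h2, h3, h4]

theorem wB_up_lo {V : Finset α} {p l : α → ℝ} (hp : ∀ j ∈ V, 0 < p j ∧ p j < 1)
    (hl : ∀ j ∈ V, 0 ≤ l j) {k : α} (hk : k ∈ V) {X : Finset (Finset α)}
    (hX : X ⊆ V.powerset) :
    p k * wB V p l (up k X) + (1 - p k) * wB V p l (lo k X) ≤ wB V p l X := by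
  rw [wB_eq (up_sub hX), wB_eq (lo_sub.trans hX), wB_eq hX, mul_sum, mul_sum,
    ← sum_add_distrib]
  refine sum_le_sum fun j hj => ?_
  by_cases hjk : j = k
  · rw [hjk, (wj_same k X).1, (wj_same k X).2]
    exact le_of_eq (by ring)
  · have h1 := mul_le_mul_of_nonneg_left (wj_le hp hjk hk X) (hl j hj)
    refine le_trans (le_of_eq ?_) h1
    ring

/-- Weighted form of `min_down`. -/
theorem wmin_down {V : Finset α} {p l : α → ℝ} (hp : ∀ j ∈ V, 0 < p j ∧ p j < 1)
    (hl : ∀ j ∈ V, 0 ≤ l j) {D : Finset (Finset α)} (hDV : D ⊆ V.powerset) (hD : Down D)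
    {c : ℝ} (h : ∀ X ⊆ D, Down X → c * wP V p X ≤ wB V p l X)
    {X : Finset (Finset α)} (hX : X ⊆ D) : c * wP V p X ≤ wB V p l X := by
  obtain ⟨φ, hφ⟩ : ∃ φ : Finset (Finset α) → ℝ, φ = fun X => wB V p l X - c * wP V p X :=
    ⟨_, rfl⟩
  obtain ⟨X0, hX0, hmin⟩ := exists_min_image D.powerset φ ⟨∅, empty_mem_powerset D⟩
  obtain ⟨X1, hX1, hmax⟩ := exists_max_image (D.powerset.filter (fun X => φ X = φ X0))
    (fun X => X.card) ⟨X0, mem_filter.2 ⟨hX0, rfl⟩⟩
  rw [mem_filter, mem_powerset] at hX1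
  have hX1V : X1 ⊆ V.powerset := hX1.1.trans hDV
  have hup : ∀ k ∈ V, up k X1 = X1 := by
    intro k hk
    have h1 := wP_up_lo (p := p) hk hX1V
    have h2 := wB_up_lo hp hl hk hX1V
    have hA : up k X1 ⊆ D := by
      intro Y hY
      rw [mem_up] at hY
      rcases hY with h | h
      · exact hX1.1 h
      · exact hD _ (hX1.1 h.2) _ (subset_insert k Y)
    have hB : lo k X1 ⊆ D := lo_sub.trans hX1.1
    have h3 := hmin _ (mem_powerset.2 hA)
    have h4 := hmin _ (mem_powerset.2 hB)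
    have h5 : p k * φ (up k X1) + (1 - p k) * φ (lo k X1) ≤ φ X1 := by
      rw [hφ]
      dsimp only
      have h6 : c * (p k * wP V p (up k X1) + (1 - p k) * wP V p (lo k X1)) =
          c * wP V p X1 := by rw [h1]
      linarith
    have h7 : φ (up k X1) = φ X0 := by
      have h8 := hX1.2
      obtain ⟨hp0, hp1⟩ := hp k hk
      have h9 : (1 - p k) * φ X0 ≤ (1 - p k) * φ (lo k X1) :=
        mul_le_mul_of_nonneg_left h4 (by linarith)
      have h10 : p k * φ (up k X1) ≤ p k * φ X0 := by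
        rw [h8] at h5
        linarith
      exact le_antisymm (le_of_mul_le_mul_left h10 hp0) h3
    have h9 := hmax _ (mem_filter.2 ⟨mem_powerset.2 hA, h7⟩)
    have h10 : X1 ⊆ up k X1 := fun Y hY => mem_up.2 (Or.inl hY)
    exact (eq_of_subset_of_card_le h10 h9).symm
  have hdown : Down X1 := by
    have key : ∀ n : ℕ, ∀ Y ∈ X1, ∀ Z ⊆ Y, (Y \ Z).card = n → Z ∈ X1 := by
      intro n
      induction n with
      | zero =>
        intro Y hY Z hZ hc
        rw [card_eq_zero, sdiff_eq_empty_iff_subset] at hc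
        rw [Subset.antisymm hZ hc]
        exact hY
      | succ n ih =>
        intro Y hY Z hZ hc
        have hne : (Y \ Z).Nonempty := card_pos.1 (by omega)
        obtain ⟨k, hk⟩ := hne
        have hk' := mem_sdiff.1 hk
        have hkV : k ∈ V := mem_powerset.1 (hX1V hY) hk'.1
        have h1 : Y.erase k ∈ X1 := by
          rw [← hup k hkV, mem_up]
          right
          refine ⟨notMem_erase k Y, ?_⟩
          rw [insert_erase hk'.1]
          exact hY
        refine ih (Y.erase k) h1 Z (subset_erase.2 ⟨hZ, hk'.2⟩) ?_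
        have h2 : Y.erase k \ Z = (Y \ Z).erase k := by
          ext a
          simp only [mem_sdiff, mem_erase]
          tauto
        rw [h2, card_erase_of_mem hk, hc]
        rfl
    exact fun Y hY Z hZ => key _ Y hY Z hZ rfl
  have h1 := h X1 hX1.1 hdown
  have h2 := hmin X (mem_powerset.2 hX)
  have h3 := hX1.2
  rw [hφ] at h2 h3
  dsimp only at h2 h3
  linarith

end Pool.Agent.H51.UC
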