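import Pool.Agent.H62.UT.Defs

/-!
MP_75f39d_co, theorem T5, Kraft form: exits inside disjoint blocks.

`N`, `H` families of finite sets, no member of `N` in `H`, supersets inside `V` of members of `H`
are in `H`.

* `exit_above`: `w ∈ N`, `w ∪ B ∈ H`: there is an exit `(M, Y)` with `w ⊆ M`, `Y ⊆ w ∪ B`
  (`M` a largest member of `N` between `w` and `w ∪ B`, `Y` a smallest member of `H` between `M` and
  `w ∪ B`).
* `block_fiber`: for `B ∈ H` map `w ∈ N` to such an exit `(M, Y)`.  Then `Y \ M ⊆ B`, and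
  `M \ B ⊆ w ⊆ M` with `B` not inside `M` (else `M ∈ H`): at most `2 ^ (|B| - 1)` of the `w` have the
  same image.
* `block_le`: `|N| ≤ 2 ^ (|B| - 1) * #{exits (M, Y) with Y \ M ⊆ B}`.
* `block_lt`: if `(∅, Y₀)` is an exit with `Y₀ ⊆ B` then only `w = ∅` can go there.
* `kraft_sum`: the exits of disjoint blocks are different.
-/

set_option autoImplicit false

namespace Pool.Agent.H51.UC

open Finset Pool.Agent.H62.UC

variable {α : Type*} [DecidableEq α]

/-- The exits with `Y ∖ w ⊆ B`. -/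
def exIn (N H : Finset (Finset α)) (B : Finset α) : Finset (Finset α × Finset α) :=
  (exits N H).filter fun e => e.2 \ e.1 ⊆ B

theorem mem_exIn {N H : Finset (Finset α)} {B : Finset α} {e : Finset α × Finset α} :
    e ∈ exIn N H B ↔ e ∈ exits N H ∧ e.2 \ e.1 ⊆ B := by
  simp [exIn]

theorem exit_above {N H : Finset (Finset α)} {w W : Finset α}
    (hw : w ∈ N) (hwW : w ⊆ W) (hW : W ∈ H) :
    ∃ e ∈ exits N H, w ⊆ e.1 ∧ e.2 ⊆ W := by
  obtain ⟨M, hM, hmax⟩ := exists_max_image (N.filter (fun z => w ⊆ z ∧ z ⊆ W))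
    (fun z : Finset α => z.card) ⟨w, mem_filter.2 ⟨hw, Subset.refl _, hwW⟩⟩
  rw [mem_filter] at hM
  obtain ⟨Y, hY, hmin⟩ := exists_min_image (H.filter (fun z => M ⊆ z ∧ z ⊆ W))
    (fun z : Finset α => z.card) ⟨W, mem_filter.2 ⟨hW, hM.2.2, Subset.refl _⟩⟩
  rw [mem_filter] at hY
  refine ⟨(M, Y), mem_exits.2 ⟨hM.1, hY.1, hY.2.1, ?_⟩, hM.2.1, hY.2.2⟩
  intro Z hZ h1 h2
  have h1' : M ⊆ Z := h1
  have h2' : Z ⊆ Y := h2
  rcases hZ with hZ | hZ
  · left
    exact (eq_of_subset_of_card_le h1' (hmax Z (mem_filter.2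
      ⟨hZ, hM.2.1.trans h1', h2'.trans hY.2.2⟩))).symm
  · right
    exact eq_of_subset_of_card_le h2' (hmin Z (mem_filter.2 ⟨hZ, h1', h2'.trans hY.2.2⟩))

theorem exit_ne {N H : Finset (Finset α)} (hdis : ∀ w ∈ N, w ∉ H) {e : Finset α × Finset α}
    (he : e ∈ exits N H) : (e.2 \ e.1).Nonempty := by
  rw [mem_exits] at he
  obtain ⟨hw, hY, hwY, -⟩ := he
  rw [sdiff_nonempty]
  intro h
  have h1 : e.1 = e.2 := Subset.antisymm hwY h
  exact hdis e.1 hw (h1 ▸ hY)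

theorem block_fiber {V : Finset α} {N H : Finset (Finset α)} (hN : N ⊆ V.powerset)
    (hup : ∀ Y ∈ H, ∀ Z ⊆ V, Y ⊆ Z → Z ∈ H) (hdis : ∀ w ∈ N, w ∉ H) {B : Finset α}
    (hB : B ∈ H) (hBV : B ⊆ V) :
    ∃ f : Finset α → Finset α × Finset α, (∀ w ∈ N, f w ∈ exIn N H B ∧ w ⊆ (f w).1) ∧
      ∀ e ∈ exIn N H B, (N.filter (fun w => f w = e)).card ≤ 2 ^ (B.card - 1) := by
  have h1 : ∀ w, ∃ e : Finset α × Finset α, w ∈ N → e ∈ exits N H ∧ w ⊆ e.1 ∧ e.2 ⊆ w ∪ B := by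
    intro w
    by_cases hw : w ∈ N
    · have hWV : w ∪ B ⊆ V := union_subset (mem_powerset.1 (hN hw)) hBV
      obtain ⟨e, he, h1, h2⟩ := exit_above hw subset_union_left
        (hup B hB _ hWV subset_union_right)
      exact ⟨e, fun _ => ⟨he, h1, h2⟩⟩
    · exact ⟨(∅, ∅), fun h => absurd h hw⟩
  choose f hf using h1
  refine ⟨f, fun w hw => ?_, fun e he => ?_⟩
  · obtain ⟨h1, h2, h3⟩ := hf w hw
    refine ⟨mem_exIn.2 ⟨h1, fun a ha => ?_⟩, h2⟩
    rw [mem_sdiff] at ha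
    rcases mem_union.1 (h3 ha.1) with h | h
    · exact absurd (h2 h) ha.2
    · exact h
  · rw [mem_exIn] at he
    obtain ⟨M, Y⟩ := e
    have he' := mem_exits.1 he.1
    obtain ⟨hM, hY, hMY, -⟩ := he'
    change M ∈ N at hM
    change M ⊆ Y at hMY
    have hMV : M ⊆ V := mem_powerset.1 (hN hM)
    have hsub : N.filter (fun w => f w = (M, Y)) ⊆ Finset.Icc (M \ B) M := by
      intro w hw
      rw [mem_filter] at hw
      obtain ⟨h1, h2, h3⟩ := hf w hw.1
      rw [hw.2] at h2 h3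
      change w ⊆ M at h2
      change Y ⊆ w ∪ B at h3
      rw [mem_Icc]
      refine ⟨?_, h2⟩
      intro a ha
      rw [mem_sdiff] at ha
      rcases mem_union.1 (h3 (hMY ha.1)) with h | h
      · exact h
      · exact absurd h ha.2
    have hlt : (M ∩ B).card < B.card := by
      refine card_lt_card ⟨inter_subset_right, fun h => hdis M hM (hup B hB M hMV ?_)⟩
      exact h.trans inter_subset_left
    calc (N.filter (fun w => f w = (M, Y))).card ≤ (Finset.Icc (M \ B) M).card :=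
          card_le_card hsub
      _ = 2 ^ (M.card - (M \ B).card) := card_Icc_finset sdiff_subset
      _ ≤ 2 ^ (B.card - 1) := by
          refine Nat.pow_le_pow_right (by norm_num) ?_
          have h2 := card_sdiff_add_card_inter M B
          omega

theorem block_le {V : Finset α} {N H : Finset (Finset α)} (hN : N ⊆ V.powerset)
    (hup : ∀ Y ∈ H, ∀ Z ⊆ V, Y ⊆ Z → Z ∈ H) (hdis : ∀ w ∈ N, w ∉ H) {B : Finset α}
    (hB : B ∈ H) (hBV : B ⊆ V) : N.card ≤ 2 ^ (B.card - 1) * (exIn N H B).card := by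
  obtain ⟨f, hf, hn⟩ := block_fiber hN hup hdis hB hBV
  exact card_le_mul_card_image_of_maps_to (fun w hw => (hf w hw).1) _ hn

theorem block_lt {V : Finset α} {N H : Finset (Finset α)} (hN : N ⊆ V.powerset)
    (hup : ∀ Y ∈ H, ∀ Z ⊆ V, Y ⊆ Z → Z ∈ H) (hdis : ∀ w ∈ N, w ∉ H) {B : Finset α}
    (hB : B ∈ H) (hBV : B ⊆ V) (h2 : 2 ≤ B.card) {Y0 : Finset α}
    (he : (∅, Y0) ∈ exIn N H B) : N.card < 2 ^ (B.card - 1) * (exIn N H B).card := by
  obtain ⟨f, hf, hn⟩ := block_fiber hN hup hdis hB hBV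
  have h1 : N.card = ∑ e ∈ exIn N H B, (N.filter (fun w => f w = e)).card :=
    card_eq_sum_card_fiberwise (fun w hw => (hf w hw).1)
  have h3 : (N.filter (fun w => f w = (∅, Y0))).card < 2 ^ (B.card - 1) := by
    have h4 : N.filter (fun w => f w = (∅, Y0)) ⊆ {∅} := by
      intro w hw
      rw [mem_filter] at hw
      have h5 := (hf w hw.1).2
      rw [hw.2] at h5
      exact mem_singleton.2 (subset_empty.1 h5)
    have h6 := card_le_card h4
    rw [card_singleton] at h6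
    refine lt_of_le_of_lt h6 (Nat.one_lt_two_pow ?_)
    omega
  rw [h1, mul_comm, ← smul_eq_mul, ← sum_const]
  exact sum_lt_sum hn ⟨_, he, h3⟩

theorem kraft_sum {N H : Finset (Finset α)} (hdis : ∀ w ∈ N, w ∉ H) {S : Finset α}
    {ℬ : Finset (Finset α)} (hS : ∀ B ∈ ℬ, B ⊆ S)
    (hd : ∀ B ∈ ℬ, ∀ B' ∈ ℬ, B ≠ B' → Disjoint B B') :
    (∑ B ∈ ℬ, (exIn N H B).card ≤ (exIn N H S).card) ∧
      ∀ e ∈ exIn N H S, (∀ B ∈ ℬ, e ∉ exIn N H B) →
        ∑ B ∈ ℬ, (exIn N H B).card < (exIn N H S).card := by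
  have h1 : ∑ B ∈ ℬ, (exIn N H B).card = (ℬ.biUnion fun B => exIn N H B).card := by
    rw [card_biUnion]
    intro B hB B' hB' hne
    rw [Function.onFun, disjoint_left]
    intro e he he'
    rw [mem_exIn] at he he'
    obtain ⟨a, ha⟩ := exit_ne hdis he.1
    exact disjoint_left.1 (hd B hB B' hB' hne) (he.2 ha) (he'.2 ha)
  have h2 : (ℬ.biUnion fun B => exIn N H B) ⊆ exIn N H S := by
    intro e he
    rw [mem_biUnion] at he
    obtain ⟨B, hB, he⟩ := he
    rw [mem_exIn] at he ⊢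
    exact ⟨he.1, he.2.trans (hS B hB)⟩
  rw [h1]
  refine ⟨card_le_card h2, fun e he hn => card_lt_card ⟨h2, fun h => ?_⟩⟩
  have h3 := h he
  rw [mem_biUnion] at h3
  obtain ⟨B, hB, h4⟩ := h3
  exact hn B hB h4

end Pool.Agent.H51.UC
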