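import Pool.Agent.H62.UC.Me
import Pool.Agent.H51.UC.Na

/-!
MP_75f39d_co, theorem T5, Kraft form: the two covering conditions and the exit inequality.

* `HalfCov A S i`: for at least half of the subsets `Y` of `S ∖ {i}` the set `Y ∪ {i}` contains a
  member that contains `i`.
* `KraftCov A S i`: there are members `T ⊆ S` that contain `i`, any two of which meet only in `i`,
  with `∑ 4 / 2 ^ |T| ≥ 1`.
* `cov_ge`: either of the two gives `|Ns A i| ≤ #{exits (w, Y) with Y ∖ w ⊆ S}`.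
* `cov_eq`: if `S` contains all members, there is an exit `(∅, Y₀)` and equality holds, then `Y₀ = {a}` and
  every member that contains `i` contains `a`.
-/

set_option autoImplicit false

namespace Pool.Agent.H51.UC

open Finset Pool.Agent.H62.UC

variable {α : Type*} [DecidableEq α]

/-- For at least half of the subsets `Y` of `S ∖ {i}` the set `Y ∪ {i}` contains a member of `A`
that contains `i`. -/
def HalfCov (A : Finset (Finset α)) (S : Finset α) (i : α) : Prop :=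
  2 ^ (S.erase i).card ≤
    2 * ((S.erase i).powerset.filter fun Y => ∃ T ∈ A, i ∈ T ∧ T ⊆ insert i Y).card

/-- There are members of `A` inside `S` that contain `i`, any two of which meet only in `i`, and
`∑ 4 / 2 ^ |T| ≥ 1`. -/
def KraftCov (A : Finset (Finset α)) (S : Finset α) (i : α) : Prop :=
  ∃ 𝒯 : Finset (Finset α), (∀ T ∈ 𝒯, T ∈ A ∧ i ∈ T ∧ T ⊆ S) ∧
    (∀ T ∈ 𝒯, ∀ T' ∈ 𝒯, T ≠ T' → T ∩ T' = {i}) ∧ (1 : ℝ) ≤ ∑ T ∈ 𝒯, 4 / 2 ^ T.card

omit [DecidableEq α] in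
theorem pr_one (i : α) : pr (fun _ => 1) i = fun _ => (1 / 2 : ℝ) := by
  funext j
  unfold pr
  rw [div_one, min_self, Real.rpow_neg_one]
  norm_num

theorem pm_half {V Z : Finset α} (hZ : Z ⊆ V) : pm V (fun _ => (1 / 2 : ℝ)) Z = 1 / 2 ^ V.card := by
  unfold pm
  rw [prod_const, prod_const]
  have h1 : (1 : ℝ) - 1 / 2 = 1 / 2 := by norm_num
  rw [h1, ← pow_add, one_div_pow]
  have h2 := card_sdiff_add_card_eq_card hZ
  congr 2
  omega

theorem nu_one (A : Finset (Finset α)) (S : Finset α) (i : α) :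
    nu A S (fun _ => 1) i = (((S.erase i).powerset.filter
      fun Y => ¬ ∃ T ∈ A, i ∈ T ∧ T ⊆ insert i Y).card : ℝ) / 2 ^ (S.erase i).card := by
  unfold nu
  rw [pr_one, sum_congr rfl (fun Y hY => pm_half (mem_powerset.1 (mem_filter.1 hY).1)),
    sum_const, nsmul_eq_mul, mul_one_div]

theorem half_iff {A : Finset (Finset α)} {S : Finset α} {i : α} :
    HalfCov A S i ↔ nu A S (fun _ => 1) i ≤ 1 / 2 := by
  rw [nu_one, div_le_div_iff₀ (by positivity) two_pos, one_mul]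
  have h1 := card_filter_add_card_filter_not (s := (S.erase i).powerset)
    (fun Y => ∃ T ∈ A, i ∈ T ∧ T ⊆ insert i Y)
  rw [card_powerset] at h1
  unfold HalfCov
  have h2 : (((S.erase i).powerset.filter
      fun Y => ¬ ∃ T ∈ A, i ∈ T ∧ T ⊆ insert i Y).card : ℝ) * 2 ≤ 2 ^ (S.erase i).card ↔
      ((S.erase i).powerset.filter
      fun Y => ¬ ∃ T ∈ A, i ∈ T ∧ T ⊆ insert i Y).card * 2 ≤ 2 ^ (S.erase i).card := by
    norm_cast
  rw [h2]
  omega

theorem nu_half {A : Finset (Finset α)} {S : Finset α} {i : α} (h : HalfCov A S i) :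
    nu A S (fun _ => 1) i ≤ 1 / 2 := half_iff.1 h

/-- A point of `e.2 \ e.1`. -/
noncomputable def Jn (i : α) (e : Finset α × Finset α) : α :=
  if h : (e.2 \ e.1).Nonempty then h.choose else i

theorem Jn_mem {A : Finset (Finset α)} {G : Finset α}
    (hA : ∀ S ∈ A, ∀ T ∈ A, S ∪ T ∈ A) {i : α} {e : Finset α × Finset α}
    (he : e ∈ exits (Ns A i) (Hs G A i)) : Jn i e ∈ e.2 \ e.1 := by
  have h : (e.2 \ e.1).Nonempty := exit_nonempty hA he
  rw [Jn, dif_pos h]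
  exact h.choose_spec

theorem Ns_empty {A : Finset (Finset α)} (hA : ∀ S ∈ A, ∀ T ∈ A, S ∪ T ∈ A) {i : α}
    (hi : {i} ∈ A) : Ns A i = ∅ := by
  rw [eq_empty_iff_forall_notMem]
  intro T hT
  rw [mem_Ns] at hT
  refine hT.2.2 ?_
  rw [insert_eq]
  exact hA _ hi _ hT.1

theorem nu_pos {A : Finset (Finset α)} {S : Finset α} {i : α} (hi : {i} ∉ A) :
    0 < nu A S (fun _ => 1) i := by
  rw [nu_one]
  refine div_pos ?_ (by positivity)
  rw [Nat.cast_pos, card_pos]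
  refine ⟨∅, mem_filter.2 ⟨empty_mem_powerset _, ?_⟩⟩
  rintro ⟨T, hT, hiT, hTs⟩
  have h1 : T = {i} := by
    apply Subset.antisymm
    · rwa [insert_empty_eq] at hTs
    · exact singleton_subset_iff.2 hiT
  exact hi (h1 ▸ hT)

theorem log_half : Real.log (1 / (1 - 1 / 2 : ℝ)) = Real.log 2 := by
  norm_num

theorem log_nu {A : Finset (Finset α)} {S : Finset α} {i : α} (hi : {i} ∉ A)
    (h : HalfCov A S i) : Real.log 2 ≤ Real.log (1 / nu A S (fun _ => 1) i) := by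
  have h1 := nu_pos (S := S) hi
  refine Real.log_le_log two_pos ?_
  rw [le_div_iff₀ h1]
  linarith [nu_half h]

theorem half_ge {A : Finset (Finset α)} {G : Finset α} (hA : ∀ S ∈ A, ∀ T ∈ A, S ∪ T ∈ A)
    (hG : ∀ T ∈ A, T ⊆ G) {S : Finset α} (hS : S ⊆ G) {i : α} (hi : i ∈ S)
    (h : HalfCov A S i) : (Ns A i).card ≤ (exIn (Ns A i) (Hs G A i) S).card := by
  by_cases hs : {i} ∈ A
  · rw [Ns_empty hA hs, card_empty]
    exact Nat.zero_le _
  have h1 := slice_bound hA hG hS hi (p := pr (fun _ => 1) i) (fun j _ => by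
    rw [pr_one]
    norm_num) (J := Jn i) (fun e he => Jn_mem hA he)
  have h2 := log_nu hs h
  unfold nu at h2
  have h3 : 0 < Real.log 2 := Real.log_pos one_lt_two
  rw [pr_one] at h1 h2
  rw [sum_congr rfl (fun e _ => log_half), sum_const, nsmul_eq_mul] at h1
  have h4 := (mul_le_mul_of_nonneg_left h2 (Nat.cast_nonneg (Ns A i).card)).trans h1
  have h5 := le_of_mul_le_mul_right h4 h3
  exact_mod_cast h5

/-- The blocks of a Kraft cover. -/
theorem blocks {A : Finset (Finset α)} {G : Finset α} (hG : ∀ T ∈ A, T ⊆ G) {S : Finset α}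
    {i : α} (hs : {i} ∉ A) (h : KraftCov A S i) :
    ∃ ℬ : Finset (Finset α), (∀ B ∈ ℬ, B ∈ Hs G A i ∧ B ⊆ S ∧ 1 ≤ B.card) ∧
      (∀ B ∈ ℬ, ∀ B' ∈ ℬ, B ≠ B' → Disjoint B B') ∧
      (1 : ℝ) ≤ ∑ B ∈ ℬ, 1 / 2 ^ (B.card - 1) := by
  obtain ⟨𝒯, h1, h2, h3⟩ := h
  have hinj : Set.InjOn (fun T : Finset α => T.erase i) (𝒯 : Set (Finset α)) := by
    intro T hT T' hT' h
    have h4 := (h1 T hT).2.1
    have h5 := (h1 T' hT').2.1
    have h6 : T.erase i = T'.erase i := h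
    rw [← insert_erase h4, ← insert_erase h5, h6]
  have hc : ∀ T ∈ 𝒯, 1 ≤ (T.erase i).card := by
    intro T hT
    obtain ⟨h4, h5, _⟩ := h1 T hT
    rw [Nat.one_le_iff_ne_zero, Ne, card_eq_zero]
    intro h6
    have h7 : T = {i} := by
      rw [← insert_erase h5, h6, insert_empty_eq]
    exact hs (h7 ▸ h4)
  refine ⟨𝒯.image fun T => T.erase i, ?_, ?_, ?_⟩
  · intro B hB
    obtain ⟨T, hT, rfl⟩ := mem_image.1 hB
    obtain ⟨h4, h5, h6⟩ := h1 T hT
    refine ⟨mem_Hs.2 ⟨⟨(erase_subset i T).trans (hG T h4), notMem_erase i T⟩, T, h4, h5, ?_⟩,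
      (erase_subset i T).trans h6, hc T hT⟩
    rw [insert_erase h5]
  · intro B hB B' hB' hne
    obtain ⟨T, hT, rfl⟩ := mem_image.1 hB
    obtain ⟨T', hT', rfl⟩ := mem_image.1 hB'
    have hTT : T ≠ T' := by
      rintro rfl
      exact hne rfl
    have h4 := h2 T hT T' hT' hTT
    rw [disjoint_left]
    intro a ha ha'
    rw [mem_erase] at ha ha'
    have h5 : a ∈ T ∩ T' := mem_inter.2 ⟨ha.2, ha'.2⟩
    rw [h4, mem_singleton] at h5
    exact ha.1 h5
  · rw [sum_image hinj]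
    refine h3.trans (le_of_eq (sum_congr rfl fun T hT => ?_))
    have h4 := hc T hT
    have h5 := (h1 T hT).2.1
    have h6 : T.card = ((T.erase i).card - 1) + 2 := by
      have h7 := card_erase_add_one h5
      omega
    rw [h6, pow_add]
    have h8 : ((2 : ℝ) ^ ((T.erase i).card - 1)) ≠ 0 := by positivity
    field_simp
    norm_num

theorem kraft_ge {A : Finset (Finset α)} {G : Finset α} (hA : ∀ S ∈ A, ∀ T ∈ A, S ∪ T ∈ A)
    (hG : ∀ T ∈ A, T ⊆ G) {S : Finset α} {i : α}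
    (h : KraftCov A S i) : (Ns A i).card ≤ (exIn (Ns A i) (Hs G A i) S).card := by
  by_cases hs : {i} ∈ A
  · rw [Ns_empty hA hs, card_empty]
    exact Nat.zero_le _
  obtain ⟨ℬ, h1, h2, h3⟩ := blocks hG hs h
  have h4 : ∀ B ∈ ℬ, ((Ns A i).card : ℝ) * (1 / 2 ^ (B.card - 1)) ≤
      ((exIn (Ns A i) (Hs G A i) B).card : ℝ) := by
    intro B hB
    have h5 := block_le (Ns_sub hG i) Hs_up (Ns_not_Hs hA) (h1 B hB).1
      (mem_powerset.1 (Hs_sub G A i (h1 B hB).1))
    rw [mul_one_div, div_le_iff₀ (by positivity), mul_comm]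
    exact_mod_cast h5
  have h5 := sum_le_sum h4
  rw [← mul_sum] at h5
  have h6 := (kraft_sum (Ns_not_Hs (G := G) (i := i) hA) (S := S)
    (fun B hB => (h1 B hB).2.1) h2).1
  have h7 : ((Ns A i).card : ℝ) ≤ ((Ns A i).card : ℝ) * ∑ B ∈ ℬ, 1 / 2 ^ (B.card - 1) :=
    le_mul_of_one_le_right (Nat.cast_nonneg _) h3
  have h8 : ((Ns A i).card : ℝ) ≤ ((exIn (Ns A i) (Hs G A i) S).card : ℝ) := by
    refine (h7.trans h5).trans ?_
    exact_mod_cast h6
  exact_mod_cast h8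

theorem cov_ge {A : Finset (Finset α)} {G : Finset α} (hA : ∀ S ∈ A, ∀ T ∈ A, S ∪ T ∈ A)
    (hG : ∀ T ∈ A, T ⊆ G) {S : Finset α} (hS : S ⊆ G) {i : α} (hi : i ∈ S)
    (h : HalfCov A S i ∨ KraftCov A S i) :
    (Ns A i).card ≤ (exIn (Ns A i) (Hs G A i) S).card := by
  rcases h with h | h
  · exact half_ge hA hG hS hi h
  · exact kraft_ge hA hG h

/-! ## Equality -/

theorem kraft_eq {A : Finset (Finset α)} {G : Finset α} (hA : ∀ S ∈ A, ∀ T ∈ A, S ∪ T ∈ A)
    (hG : ∀ T ∈ A, T ⊆ G) {i : α} (h : KraftCov A G i)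
    (hle : (exIn (Ns A i) (Hs G A i) G).card ≤ (Ns A i).card) {Y0 : Finset α}
    (he : (∅, Y0) ∈ exits (Ns A i) (Hs G A i)) :
    ∃ a, Y0 = {a} ∧ ∀ T ∈ A, i ∈ T → a ∈ T := by
  have he' := mem_exits.1 he
  have h0 : ∅ ∈ Ns A i := he'.1
  have hs : {i} ∉ A := fun hs => by
    rw [Ns_empty hA hs] at h0
    exact notMem_empty _ h0
  have hN : 0 < (Ns A i).card := card_pos.2 ⟨_, h0⟩
  obtain ⟨ℬ, h1, h2, h3⟩ := blocks hG hs h
  have hdis := Ns_not_Hs (G := G) (i := i) hA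
  have hB : ∀ B ∈ ℬ, (Ns A i).card ≤
      2 ^ (B.card - 1) * (exIn (Ns A i) (Hs G A i) B).card := fun B hB =>
    block_le (Ns_sub hG i) Hs_up hdis (h1 B hB).1 (mem_powerset.1 (Hs_sub G A i (h1 B hB).1))
  have hB' : ∀ B ∈ ℬ, ((Ns A i).card : ℝ) * (1 / 2 ^ (B.card - 1)) ≤
      ((exIn (Ns A i) (Hs G A i) B).card : ℝ) := by
    intro B hB1
    rw [mul_one_div, div_le_iff₀ (by positivity), mul_comm]
    exact_mod_cast hB B hB1
  obtain ⟨k1, k2⟩ := kraft_sum hdis (S := G) (fun B hB => (h1 B hB).2.1) h2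
  have h7 : ((Ns A i).card : ℝ) ≤ ((Ns A i).card : ℝ) * ∑ B ∈ ℬ, 1 / 2 ^ (B.card - 1) :=
    le_mul_of_one_le_right (Nat.cast_nonneg _) h3
  rw [mul_sum] at h7
  -- the exit lies in a block
  have hsub : ∀ e ∈ exits (Ns A i) (Hs G A i), e ∈ exIn (Ns A i) (Hs G A i) G := by
    intro e he1
    have h5 := mem_powerset.1 (Hs_sub G A i (mem_exits.1 he1).2.1)
    exact mem_exIn.2 ⟨he1, sdiff_subset.trans (h5.trans (erase_subset i G))⟩
  have hall : ∀ e ∈ exits (Ns A i) (Hs G A i), ∃ B ∈ ℬ, e ∈ exIn (Ns A i) (Hs G A i) B := by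
    intro e he1
    by_contra hcon
    have h5 := k2 e (hsub e he1) (fun B hB1 h6 => hcon ⟨B, hB1, h6⟩)
    have h6 := h7.trans (sum_le_sum hB')
    have h8 : (∑ B ∈ ℬ, ((exIn (Ns A i) (Hs G A i) B).card : ℝ)) < ((Ns A i).card : ℝ) := by
      exact_mod_cast lt_of_lt_of_le h5 hle
    linarith
  obtain ⟨B, hBm, hB1⟩ := hall _ he
  have hBc : B.card < 2 := by
    by_contra hcon
    have h5 := block_lt (Ns_sub hG i) Hs_up hdis (h1 B hBm).1
      (mem_powerset.1 (Hs_sub G A i (h1 B hBm).1)) (not_lt.1 hcon) hB1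
    have h6 : ((Ns A i).card : ℝ) * (1 / 2 ^ (B.card - 1)) <
        ((exIn (Ns A i) (Hs G A i) B).card : ℝ) := by
      rw [mul_one_div, div_lt_iff₀ (by positivity), mul_comm]
      exact_mod_cast h5
    have h8 := h7.trans_lt (sum_lt_sum hB' ⟨B, hBm, h6⟩)
    have h9 : (∑ B ∈ ℬ, ((exIn (Ns A i) (Hs G A i) B).card : ℝ)) ≤ ((Ns A i).card : ℝ) := by
      exact_mod_cast k1.trans hle
    linarith
  have hB2 : B.card = 1 := by
    have := (h1 B hBm).2.2
    omega
  obtain ⟨a, rfl⟩ := card_eq_one.1 hB2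
  refine ⟨a, ?_, ?_⟩
  · have h5 := (mem_exIn.1 hB1).2
    change Y0 \ ∅ ⊆ {a} at h5
    rw [sdiff_empty] at h5
    rcases subset_singleton_iff.1 h5 with h6 | h6
    · exfalso
      obtain ⟨b, hb⟩ := exit_ne hdis he
      change b ∈ Y0 \ ∅ at hb
      rw [h6] at hb
      simp at hb
    · exact h6
  · intro T hT hiT
    by_contra haT
    have hTH : T.erase i ∈ Hs G A i := mem_Hs.2
      ⟨⟨(erase_subset i T).trans (hG T hT), notMem_erase i T⟩, T, hT, hiT, by
        rw [insert_erase hiT]⟩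
    obtain ⟨e, he1, _, he3⟩ := exit_above h0 (empty_subset _) hTH
    have h5 : e ∉ exIn (Ns A i) (Hs G A i) {a} := by
      intro h6
      obtain ⟨b, hb⟩ := exit_ne hdis he1
      have h7 := mem_singleton.1 ((mem_exIn.1 h6).2 hb)
      rw [h7] at hb
      exact haT (mem_of_mem_erase (he3 (mem_sdiff.1 hb).1))
    have h6 : exIn (Ns A i) (Hs G A i) {a} ⊂ exIn (Ns A i) (Hs G A i) G := by
      refine ⟨fun e' he' => hsub e' (mem_exIn.1 he').1, fun hss => h5 (hss (hsub e he1))⟩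
    have h8 := card_lt_card h6
    have h9 := hB _ hBm
    rw [card_singleton] at h9
    simp only [Nat.sub_self, pow_zero, one_mul] at h9
    omega

theorem half_eq {A : Finset (Finset α)} {G : Finset α} (hA : ∀ S ∈ A, ∀ T ∈ A, S ∪ T ∈ A)
    (hG : ∀ T ∈ A, T ⊆ G) {i : α} (h : HalfCov A G i)
    (hle : (exIn (Ns A i) (Hs G A i) G).card ≤ (Ns A i).card) {Y0 : Finset α}
    (he : (∅, Y0) ∈ exits (Ns A i) (Hs G A i)) :
    ∃ a, Y0 = {a} ∧ ∀ T ∈ A, i ∈ T → a ∈ T := by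
  have he' := mem_exits.1 he
  have h0 : ∅ ∈ Ns A i := he'.1
  have hs : {i} ∉ A := fun hs => by
    rw [Ns_empty hA hs] at h0
    exact notMem_empty _ h0
  have hN : 0 < (Ns A i).card := card_pos.2 ⟨_, h0⟩
  have hdis := Ns_not_Hs (G := G) (i := i) hA
  have hex : exIn (Ns A i) (Hs G A i) G = exits (Ns A i) (Hs G A i) := by
    refine filter_true_of_mem fun e he1 => ?_
    have h5 := mem_powerset.1 (Hs_sub G A i (mem_exits.1 he1).2.1)
    exact sdiff_subset.trans (h5.trans (erase_subset i G))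
  rw [hex] at hle
  have hp : ∀ j ∈ G.erase i, 0 < (fun _ => (1 / 2 : ℝ)) j ∧ (fun _ => (1 / 2 : ℝ)) j ≤ 1 / 2 :=
    fun j _ => by norm_num
  have hl : 0 < Real.log 2 := Real.log_pos one_lt_two
  have hnu : ∑ Z ∈ (G.erase i).powerset with Z ∉ Hs G A i,
      pm (G.erase i) (fun _ => (1 / 2 : ℝ)) Z = nu A G (fun _ => 1) i := by
    unfold nu
    rw [pr_one]
    refine sum_congr (filter_congr fun Z hZ => ?_) fun _ _ => rfl
    rw [Hs, mem_filter, not_and]
    exact ⟨fun h => h hZ, fun h _ => h⟩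
  have hlog := log_nu hs h
  have hcard : ((exits (Ns A i) (Hs G A i)).card : ℝ) ≤ ((Ns A i).card : ℝ) := by
    exact_mod_cast hle
  have hNr : (0 : ℝ) < ((Ns A i).card : ℝ) := by exact_mod_cast hN
  have hY : Y0.card < 2 := by
    by_contra hcon
    have h1 := exits_gt hp (Ns_sub hG i) (Hs_sub G A i) Hs_up hdis (Ns_union hA hG)
      (J := Jn i) (fun e he => Jn_mem hA he) ⟨_, he, by
        change 2 ≤ (Y0 \ ∅).card
        rw [sdiff_empty]
        exact not_lt.1 hcon⟩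
    rw [hnu, sum_congr rfl (fun e _ => log_half), sum_const, nsmul_eq_mul] at h1
    have h2 := mul_le_mul_of_nonneg_left hlog hNr.le
    have h3 := mul_le_mul_of_nonneg_right hcard hl.le
    linarith
  obtain ⟨b, hb⟩ := exit_ne hdis he
  change b ∈ Y0 \ ∅ at hb
  rw [sdiff_empty] at hb
  have hY1 : Y0.card = 1 := by
    have : 0 < Y0.card := card_pos.2 ⟨b, hb⟩
    omega
  obtain ⟨a, rfl⟩ := card_eq_one.1 hY1
  refine ⟨a, rfl, fun T hT hiT => ?_⟩
  by_contra haT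
  have haH : {a} ∈ Hs G A i := he'.2.1
  have haV : a ∈ G.erase i := mem_powerset.1 (Hs_sub G A i haH) (mem_singleton_self a)
  have h1 := exits_ge hp (Ns_sub hG i) (Hs_sub G A i) Hs_up hdis (Ns_union hA hG)
    (J := Jn i) (fun e he => Jn_mem hA he)
  rw [hnu, sum_congr rfl (fun e _ => log_half), sum_const, nsmul_eq_mul] at h1
  have h3 := mul_le_mul_of_nonneg_right hcard hl.le
  have h4 := le_of_mul_le_mul_left (h1.trans h3) hNr
  have h5 := nu_pos (S := G) hs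
  have h6 : 1 / nu A G (fun _ => 1) i ≤ 2 := (Real.log_le_log_iff (by positivity) two_pos).1 h4
  rw [div_le_iff₀ h5, nu_one] at h6
  have hV : (G.erase i).card = ((G.erase i).erase a).card + 1 := (card_erase_add_one haV).symm
  have h7 : (G.erase i).powerset.filter (fun Y => ¬ ∃ T ∈ A, i ∈ T ∧ T ⊆ insert i Y) ⊆
      ((G.erase i).erase a).powerset.erase (T.erase i) := by
    intro Y hYm
    rw [mem_filter, mem_powerset] at hYm
    rw [mem_erase, mem_powerset]
    constructor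
    · rintro rfl
      refine hYm.2 ⟨T, hT, hiT, ?_⟩
      rw [insert_erase hiT]
    · intro c hc
      rw [mem_erase]
      refine ⟨fun hca => ?_, hYm.1 hc⟩
      have h8 := Hs_up _ haH Y hYm.1 (singleton_subset_iff.2 (hca ▸ hc))
      exact hYm.2 (mem_Hs.1 h8).2
  have h8 : T.erase i ∈ ((G.erase i).erase a).powerset := by
    rw [mem_powerset]
    intro c hc
    rw [mem_erase] at hc
    rw [mem_erase, mem_erase]
    exact ⟨fun h => haT (h ▸ hc.2), hc.1, hG T hT hc.2⟩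
  have h9 := card_le_card h7
  rw [card_erase_of_mem h8, card_powerset] at h9
  have h10 : 0 < 2 ^ ((G.erase i).erase a).card := by positivity
  rw [hV, pow_succ] at h6
  have h11 : (((G.erase i).powerset.filter
      fun Y => ¬ ∃ T ∈ A, i ∈ T ∧ T ⊆ insert i Y).card : ℝ) <
        2 ^ ((G.erase i).erase a).card := by
    have : ((G.erase i).powerset.filter
      fun Y => ¬ ∃ T ∈ A, i ∈ T ∧ T ⊆ insert i Y).card < 2 ^ ((G.erase i).erase a).card := by
      omega
    exact_mod_cast this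
  have h12 : (0 : ℝ) < 2 ^ ((G.erase i).erase a).card := by positivity
  rw [mul_div_assoc', le_div_iff₀ (by positivity)] at h6
  linarith

theorem cov_eq {A : Finset (Finset α)} {G : Finset α} (hA : ∀ S ∈ A, ∀ T ∈ A, S ∪ T ∈ A)
    (hG : ∀ T ∈ A, T ⊆ G) {i : α} (h : HalfCov A G i ∨ KraftCov A G i)
    (hle : (exIn (Ns A i) (Hs G A i) G).card ≤ (Ns A i).card) {Y0 : Finset α}
    (he : (∅, Y0) ∈ exits (Ns A i) (Hs G A i)) :
    ∃ a, Y0 = {a} ∧ ∀ T ∈ A, i ∈ T → a ∈ T := by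
  rcases h with h | h
  · exact half_eq hA hG h hle he
  · exact kraft_eq hA hG h hle he

end Pool.Agent.H51.UC
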