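import Pool.Agent.H51.UC.Nb

/-!
MP_75f39d_co, theorem T5, Kraft form: the frequency inequality and its strict form.

`Cov A S i := HalfCov A S i ∨ KraftCov A S i`.

* `local_sum`: if `Cov A S i` for all `i ∈ S` then `∑_{i ∈ S} (2 freq_i - |A|) ≥ 0`
  (`inj_bound` with equal weights, `cov_ge`, `freq_identity`).
* `strict_cov`: if `S = U` is the union of all members, `A` separates its points and is not a power set
  then some point lies in more than half of the members.  As in `Pool.Agent.H62.UC.Mg`, with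
  `cov_eq` in place of (δ), (ε).
-/

set_option autoImplicit false

namespace Pool.Agent.H51.UC

open Finset Pool.Agent.H62.UC

variable {α : Type*} [DecidableEq α]

theorem exit_sum {A : Finset (Finset α)} {G : Finset α} (hA : ∀ S ∈ A, ∀ T ∈ A, S ∪ T ∈ A)
    (hG : ∀ T ∈ A, T ⊆ G) (S : Finset α) :
    ∑ i ∈ S, (exIn (Ns A i) (Hs G A i) S).card ≤ ∑ i ∈ S, (Bd A i).card := by
  have h1 := inj_bound hA hG (S := S) (lam := fun _ => 1) (fun _ _ => one_pos) (J := Jn)
    (fun i _ e he => Jn_mem hA he)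
  have h2 : ∑ i ∈ S, ((exIn (Ns A i) (Hs G A i) S).card : ℝ) ≤
      ∑ i ∈ S, ((Bd A i).card : ℝ) := by
    refine le_trans (le_of_eq ?_) (h1.trans (le_of_eq ?_))
    · refine sum_congr rfl fun i _ => ?_
      rw [sum_congr rfl (fun e _ => show (1 : ℝ) * min 1 (1 / 1) = 1 by norm_num), sum_const,
        nsmul_eq_mul, mul_one]
      rfl
    · exact sum_congr rfl fun i _ => one_mul _
  exact_mod_cast h2

theorem local_sum {A : Finset (Finset α)} (hA : ∀ S ∈ A, ∀ T ∈ A, S ∪ T ∈ A) {S : Finset α}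
    (h : ∀ i ∈ S, HalfCov A S i ∨ KraftCov A S i) :
    0 ≤ ∑ i ∈ S, (2 * ((A.filter (fun T => i ∈ T)).card : ℝ) - (A.card : ℝ)) := by
  obtain ⟨G, hG'⟩ : ∃ G, G = S ∪ A.sup id := ⟨_, rfl⟩
  have hS : S ⊆ G := by
    rw [hG']
    exact subset_union_left
  have hG : ∀ T ∈ A, T ⊆ G := by
    intro T hT
    rw [hG']
    exact (Finset.le_sup (f := id) hT).trans subset_union_right
  have h1 := exit_sum hA hG S
  have h2 : ∑ i ∈ S, (Ns A i).card ≤ ∑ i ∈ S, (exIn (Ns A i) (Hs G A i) S).card :=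
    sum_le_sum fun i hi => cov_ge hA hG hS hi (h i hi)
  have h3 : (∑ i ∈ S, ((Ns A i).card : ℝ)) ≤ ∑ i ∈ S, ((Bd A i).card : ℝ) := by
    exact_mod_cast h2.trans h1
  rw [sum_congr rfl (fun i _ => freq_identity A i), sum_sub_distrib]
  linarith

/-- If all frequencies are at most `|A| / 2` then equality holds everywhere. -/
theorem all_eq {A : Finset (Finset α)} (hA : ∀ S ∈ A, ∀ T ∈ A, S ∪ T ∈ A)
    (h : ∀ i ∈ A.sup id, HalfCov A (A.sup id) i ∨ KraftCov A (A.sup id) i)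
    (hf : ∀ i ∈ A.sup id, 2 * (A.filter (fun T => i ∈ T)).card ≤ A.card) :
    ∀ i ∈ A.sup id, 2 * (A.filter (fun T => i ∈ T)).card = A.card ∧
      (exIn (Ns A i) (Hs (A.sup id) A i) (A.sup id)).card ≤ (Ns A i).card := by
  have hG : ∀ T ∈ A, T ⊆ A.sup id := fun T hT => Finset.le_sup (f := id) hT
  have h1 := exit_sum hA hG (A.sup id)
  have h2 : ∀ i ∈ A.sup id, (Ns A i).card ≤
      (exIn (Ns A i) (Hs (A.sup id) A i) (A.sup id)).card :=
    fun i hi => cov_ge hA hG (Subset.refl _) hi (h i hi)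
  have h3 : ∀ i ∈ A.sup id, (Bd A i).card ≤ (Ns A i).card := by
    intro i hi
    have h4 := freq_identity A i
    have h5 : (2 : ℝ) * ((A.filter (fun T => i ∈ T)).card : ℝ) ≤ (A.card : ℝ) := by
      exact_mod_cast hf i hi
    have h6 : ((Bd A i).card : ℝ) ≤ ((Ns A i).card : ℝ) := by linarith
    exact_mod_cast h6
  intro i hi
  have h4 : ∑ i ∈ A.sup id, (Bd A i).card ≤
      ∑ i ∈ A.sup id, (exIn (Ns A i) (Hs (A.sup id) A i) (A.sup id)).card :=
    sum_le_sum fun i hi => (h3 i hi).trans (h2 i hi)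
  have h5 : ∀ i ∈ A.sup id, (Bd A i).card =
      (exIn (Ns A i) (Hs (A.sup id) A i) (A.sup id)).card :=
    (sum_eq_sum_iff_of_le fun i hi => (h3 i hi).trans (h2 i hi)).1 (le_antisymm h4 h1)
  have h6 := h5 i hi
  have h7 := h3 i hi
  have h8 := h2 i hi
  refine ⟨?_, h6 ▸ h7⟩
  have h9 := freq_identity A i
  have h10 : (Bd A i).card = (Ns A i).card := by omega
  rw [h10, sub_self] at h9
  have h11 : (2 : ℝ) * ((A.filter (fun T => i ∈ T)).card : ℝ) = (A.card : ℝ) := by linarith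
  exact_mod_cast h11

private theorem sub_sup {A : Finset (Finset α)} {T : Finset α} (hT : T ∈ A) : T ⊆ A.sup id :=
  Finset.le_sup (f := id) hT

private theorem all_sing {A : Finset (Finset α)} (hA : ∀ S ∈ A, ∀ T ∈ A, S ∪ T ∈ A)
    (h0 : ∅ ∈ A) (h1 : ∀ x ∈ A.sup id, {x} ∈ A) : A = (A.sup id).powerset := by
  apply Subset.antisymm
  · intro T hT
    exact mem_powerset.2 (sub_sup hT)
  · intro S hS
    rw [mem_powerset] at hS
    induction S using Finset.induction_on with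
    | empty => exact h0
    | insert a S ha ih =>
      rw [insert_eq]
      exact hA _ (h1 a (hS (mem_insert_self a S))) _ (ih ((subset_insert a S).trans hS))

private theorem alpha {A : Finset (Finset α)} (hA : ∀ S ∈ A, ∀ T ∈ A, S ∪ T ∈ A) {i : α}
    (hf : 2 * (A.filter (fun T => i ∈ T)).card = A.card) (hi : {i} ∈ A) {T : Finset α}
    (hT : T ∈ A) (hiT : i ∈ T) : T.erase i ∈ A := by
  have h1 := freq_identity A i
  have h2 : (2:ℝ) * ((A.filter (fun T => i ∈ T)).card : ℝ) = (A.card : ℝ) := by exact_mod_cast hf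
  rw [Ns_empty hA hi, card_empty, Nat.cast_zero, h2] at h1
  have h3 : ((Bd A i).card : ℝ) = 0 := by linarith
  have h4 : Bd A i = ∅ := card_eq_zero.1 (by exact_mod_cast h3)
  by_contra hcon
  have h5 : T ∈ Bd A i := mem_Bd.2 ⟨hT, hiT, hcon⟩
  rw [h4] at h5
  exact notMem_empty _ h5

private theorem first_exit {A : Finset (Finset α)} (h0 : ∅ ∈ A) {T' : Finset α} (hT' : T' ∈ A)
    (hmin : ∀ T ∈ A, T ⊆ T' → T = ∅ ∨ T = T') {i : α} (hi : i ∈ T') (hs : {i} ∉ A) :
    ((∅ : Finset α), T'.erase i) ∈ exits (Ns A i) (Hs (A.sup id) A i) := by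
  rw [mem_exits]
  refine ⟨mem_Ns.2 ⟨h0, notMem_empty i, ?_⟩, mem_Hs.2 ⟨⟨(erase_subset i T').trans (sub_sup hT'),
    notMem_erase i T'⟩, T', hT', hi, ?_⟩, empty_subset _, ?_⟩
  · exact hs
  · show T' ⊆ insert i (T'.erase i)
    rw [insert_erase hi]
  · intro Z hZ _ hZ2
    have hZ2' : Z ⊆ T'.erase i := hZ2
    rcases hZ with hZ | hZ
    · left
      rw [mem_Ns] at hZ
      rcases hmin Z hZ.1 (hZ2'.trans (erase_subset i T')) with h | h
      · exact h
      · exact absurd hi (h ▸ hZ.2.1)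
    · right
      rw [mem_Hs] at hZ
      obtain ⟨_, T2, hT2, hiT2, hsub⟩ := hZ
      have h1 : T2 ⊆ T' := hsub.trans (by
        intro a ha
        rcases mem_insert.1 ha with h | h
        · rw [h]
          exact hi
        · exact mem_of_mem_erase (hZ2' h))
      rcases hmin T2 hT2 h1 with h | h
      · rw [h] at hiT2
        exact absurd hiT2 (notMem_empty i)
      · apply Subset.antisymm hZ2'
        intro a ha
        rw [mem_erase] at ha
        have h2 : a ∈ insert i Z := by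
          apply hsub
          rw [h]
          exact ha.2
        rcases mem_insert.1 h2 with h3 | h3
        · exact absurd h3 ha.1
        · exact h3

theorem strict_empty {A : Finset (Finset α)} (hA : ∀ S ∈ A, ∀ T ∈ A, S ∪ T ∈ A)
    (h0 : ∅ ∈ A) (hsep : ∀ x ∈ A.sup id, ∀ y ∈ A.sup id, x ≠ y → ∃ T ∈ A, ¬ (x ∈ T ↔ y ∈ T))
    (hpow : A ≠ (A.sup id).powerset)
    (h : ∀ i ∈ A.sup id, HalfCov A (A.sup id) i ∨ KraftCov A (A.sup id) i) :
    ∃ x ∈ A.sup id, A.card < 2 * (A.filter (fun T => x ∈ T)).card := by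
  by_contra hcon
  have hfreq : ∀ x ∈ A.sup id, 2 * (A.filter (fun T => x ∈ T)).card ≤ A.card := by
    intro x hx
    by_contra h
    exact hcon ⟨x, hx, by omega⟩
  have heq := all_eq hA h hfreq
  have hG : ∀ T ∈ A, T ⊆ A.sup id := fun T hT => sub_sup hT
  obtain ⟨x, hxU, hxA⟩ : ∃ x ∈ A.sup id, {x} ∉ A := by
    by_contra h
    refine hpow (all_sing hA h0 fun x hx => ?_)
    by_contra h1
    exact h ⟨x, hx, h1⟩
  have hxne : (A.filter (fun T => x ∈ T)).Nonempty := by
    obtain ⟨T, hT, hxT⟩ := mem_sup.1 hxU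
    exact ⟨T, mem_filter.2 ⟨hT, hxT⟩⟩
  obtain ⟨T, hT, hTmin⟩ := exists_min_image _ (fun T : Finset α => T.card) hxne
  rw [mem_filter] at hT
  have hns : ∀ i ∈ T, {i} ∉ A := by
    intro i hi hiA
    have hix : i ≠ x := fun h => hxA (h ▸ hiA)
    have h1 := alpha hA (heq i (sub_sup hT.1 hi)).1 hiA hT.1 hi
    have h2 := hTmin (T.erase i) (mem_filter.2 ⟨h1, mem_erase.2 ⟨hix.symm, hT.2⟩⟩)
    have h3 := card_erase_lt_of_mem hi
    exact absurd h2 (not_le.2 h3)
  have hne2 : (A.filter (fun T' => T'.Nonempty ∧ T' ⊆ T)).Nonempty :=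
    ⟨T, mem_filter.2 ⟨hT.1, ⟨x, hT.2⟩, Subset.refl _⟩⟩
  obtain ⟨T', hT', hT'min⟩ := exists_min_image _ (fun T : Finset α => T.card) hne2
  rw [mem_filter] at hT'
  obtain ⟨hT'A, hT'ne, hT'T⟩ := hT'
  have hmin : ∀ T2 ∈ A, T2 ⊆ T' → T2 = ∅ ∨ T2 = T' := by
    intro T2 hT2 hsub
    rcases T2.eq_empty_or_nonempty with h | h
    · exact Or.inl h
    · right
      exact eq_of_subset_of_card_le hsub
        (hT'min T2 (mem_filter.2 ⟨hT2, h, hsub.trans hT'T⟩))
  obtain ⟨i, hi⟩ := hT'ne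
  have hiU : i ∈ A.sup id := sub_sup hT'A hi
  obtain ⟨a, ha, hall⟩ := cov_eq hA hG (h i hiU) (heq i hiU).2
    (first_exit h0 hT'A hmin hi (hns i (hT'T hi)))
  have haT : a ∈ T'.erase i := by
    rw [ha]
    exact mem_singleton_self a
  rw [mem_erase] at haT
  have haU : a ∈ A.sup id := sub_sup hT'A haT.2
  have hsub : A.filter (fun T => i ∈ T) ⊆ A.filter (fun T => a ∈ T) := by
    intro T2 h2
    rw [mem_filter] at h2 ⊢
    exact ⟨h2.1, hall T2 h2.1 h2.2⟩
  have hc : (A.filter (fun T => a ∈ T)).card ≤ (A.filter (fun T => i ∈ T)).card := by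
    have h1 := (heq a haU).1
    have h2 := (heq i hiU).1
    omega
  have heq2 := eq_of_subset_of_card_le hsub hc
  obtain ⟨T3, hTA, hT3⟩ := hsep a haU i hiU haT.1
  refine hT3 ?_
  constructor
  · intro h
    have h1 : T3 ∈ A.filter (fun T => a ∈ T) := mem_filter.2 ⟨hTA, h⟩
    rw [← heq2] at h1
    exact (mem_filter.1 h1).2
  · intro h
    have h1 : T3 ∈ A.filter (fun T => i ∈ T) := mem_filter.2 ⟨hTA, h⟩
    rw [heq2] at h1
    exact (mem_filter.1 h1).2

theorem strict_cov {A : Finset (Finset α)} (hA : ∀ S ∈ A, ∀ T ∈ A, S ∪ T ∈ A)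
    (hne : A.Nonempty)
    (hsep : ∀ x ∈ A.sup id, ∀ y ∈ A.sup id, x ≠ y → ∃ T ∈ A, ¬ (x ∈ T ↔ y ∈ T))
    (hpow : A ≠ (A.sup id).powerset)
    (h : ∀ i ∈ A.sup id, HalfCov A (A.sup id) i ∨ KraftCov A (A.sup id) i) :
    ∃ x ∈ A.sup id, A.card < 2 * (A.filter (fun T => x ∈ T)).card := by
  by_cases h0 : ∅ ∈ A
  · exact strict_empty hA h0 hsep hpow h
  obtain ⟨B, hB⟩ : ∃ B, B = insert ∅ A := ⟨_, rfl⟩
  have hBU : B.sup id = A.sup id := by
    rw [hB, sup_insert]
    exact bot_sup_eq _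
  have hBA : ∀ S ∈ B, ∀ T ∈ B, S ∪ T ∈ B := by
    intro S hS T hT
    rw [hB, mem_insert] at hS hT ⊢
    rcases hS with rfl | hS
    · rw [empty_union]
      exact hT
    · rcases hT with rfl | hT
      · rw [union_empty]
        exact Or.inr hS
      · exact Or.inr (hA S hS T hT)
  have hB0 : ∅ ∈ B := by
    rw [hB]
    exact mem_insert_self _ _
  have hAB : A ⊆ B := by
    rw [hB]
    exact subset_insert _ _
  have hBfreq : ∀ x, B.filter (fun T => x ∈ T) = A.filter (fun T => x ∈ T) := by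
    intro x
    rw [hB, filter_insert, if_neg (notMem_empty x)]
  have hBcard : B.card = A.card + 1 := by
    rw [hB, card_insert_of_notMem h0]
  have hBcov : ∀ i ∈ A.sup id, HalfCov B (A.sup id) i ∨ KraftCov B (A.sup id) i := by
    intro i hi
    rcases h i hi with h1 | ⟨𝒯, h1, h2⟩
    · left
      unfold HalfCov at h1 ⊢
      refine h1.trans (Nat.mul_le_mul_left 2 (card_le_card fun Y hY => ?_))
      rw [mem_filter] at hY ⊢
      obtain ⟨hY1, T, hT, hT2⟩ := hY
      exact ⟨hY1, T, hAB hT, hT2⟩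
    · right
      exact ⟨𝒯, fun T hT => ⟨hAB (h1 T hT).1, (h1 T hT).2⟩, h2⟩
  by_cases hBp : B = (B.sup id).powerset
  · obtain ⟨T, hT⟩ := hne
    have hTne : T.Nonempty := by
      rw [nonempty_iff_ne_empty]
      rintro rfl
      exact h0 hT
    obtain ⟨x, hx⟩ := hTne
    have hxU : x ∈ A.sup id := sub_sup hT hx
    refine ⟨x, hxU, ?_⟩
    have hmem : ∀ S, S ∈ B ↔ S ⊆ A.sup id := by
      intro S
      rw [hBp, mem_powerset, hBU]
    have h1 := freq_identity B x
    have h2 : Bd B x = ∅ := by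
      rw [eq_empty_iff_forall_notMem]
      intro S hS
      rw [mem_Bd] at hS
      exact hS.2.2 ((hmem _).2 ((erase_subset x S).trans ((hmem _).1 hS.1)))
    have h3 : Ns B x = ∅ := by
      rw [eq_empty_iff_forall_notMem]
      intro S hS
      rw [mem_Ns] at hS
      exact hS.2.2 ((hmem _).2 (insert_subset hxU ((hmem _).1 hS.1)))
    rw [h2, h3, hBfreq, card_empty, Nat.cast_zero, sub_zero] at h1
    have h4 : (2 : ℝ) * ((A.filter (fun T => x ∈ T)).card : ℝ) = (B.card : ℝ) := by linarith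
    have h5 : 2 * (A.filter (fun T => x ∈ T)).card = B.card := by exact_mod_cast h4
    omega
  · obtain ⟨x, hx, h1⟩ := strict_empty (A := B) hBA hB0
      (by
        rw [hBU]
        intro x hx y hy hxy
        obtain ⟨T, hT, h1⟩ := hsep x hx y hy hxy
        exact ⟨T, hAB hT, h1⟩) hBp
      (by
        rw [hBU]
        exact hBcov)
    rw [hBU] at hx
    rw [hBfreq] at h1
    exact ⟨x, hx, by omega⟩

end Pool.Agent.H51.UC
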