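import Pool.Agent.H51.UC.Ib

/-!
MP_75f39d_co, dense families: Reimer's compression.

`F` union-closed, `F ⊆ V.powerset`.  Compress upwards in one direction after the other.  `T ∈ F` moves to
`u T ⊇ T`, the image is an up-set of the same size, and the intervals `[T, u T]` are pairwise disjoint.

`comp_step`: induction over the set `W` of directions used.  The compressed family is closed
under union with the members of `F` (not only with itself).
`pow_sum_le`: `∑ 2 ^ |u T ∖ T| ≤ |H|` for every `H` that contains all sets between members of `F` and `V`.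
`up_sum`: for an up-set `∑ (2 |R| - |V|) ≥ |V| |U| - 2 ei |U|`.
`reimer_bound`: `∑_{T ∈ F} (2 |T| - |V|) + 2 (|H| / 2 ^ t + (t - 1) |F|) ≥ |V| |F| - 2 ei |F|` for all
`t : ℕ`.
-/

set_option autoImplicit false

namespace Pool.Agent.H51.UC

open Finset Pool.Agent.H62.UC

variable {α : Type*} [DecidableEq α]

/-- The data of the compression in the directions `W`. -/
def Comp (F : Finset (Finset α)) (W : Finset α) (u : Finset α → Finset α) : Prop :=
  (∀ T ∈ F, T ⊆ u T ∧ u T ⊆ T ∪ W) ∧ Set.InjOn u (F : Set (Finset α)) ∧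
    (∀ R ∈ F.image u, ∀ k ∈ W, insert k R ∈ F.image u) ∧
    (∀ R ∈ F.image u, ∀ T ∈ F, R ∪ T ∈ F.image u) ∧
    (∀ T ∈ F, ∀ T' ∈ F, ∀ X, T ⊆ X → X ⊆ u T → T' ⊆ X → X ⊆ u T' → T = T')

theorem comp_empty {F : Finset (Finset α)} (hF : ∀ S ∈ F, ∀ T ∈ F, S ∪ T ∈ F) :
    Comp F ∅ id := by
  refine ⟨fun T _ => ⟨Subset.refl _, subset_union_left⟩, fun a _ b _ h => h, ?_, ?_, ?_⟩
  · intro R _ k hk
    exact absurd hk (notMem_empty k)
  · intro R hR T hT
    rw [image_id] at hR ⊢
    exact hF R hR T hT
  · intro T _ T' _ X h1 h2 h3 h4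
    have e1 : T = X := Subset.antisymm h1 h2
    have e2 : T' = X := Subset.antisymm h3 h4
    rw [e1, e2]

theorem comp_step {F : Finset (Finset α)} {W : Finset α} {u : Finset α → Finset α}
    (h : Comp F W u) {j : α} (hj : j ∉ W) : ∃ u', Comp F (insert j W) u' := by
  obtain ⟨h1, h2, h3, h4, h5⟩ := h
  obtain ⟨G, hG⟩ : ∃ G, G = F.image u := ⟨_, rfl⟩
  rw [← hG] at h3 h4
  obtain ⟨v, hv⟩ : ∃ v : Finset α → Finset α,
      v = fun T => if insert j (u T) ∈ G then u T else insert j (u T) := ⟨_, rfl⟩
  have huG : ∀ T ∈ F, u T ∈ G := fun T hT => by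
    rw [hG]
    exact mem_image_of_mem u hT
  have v1 : ∀ T, insert j (u T) ∈ G → v T = u T := fun T hT => by
    rw [hv]
    exact if_pos hT
  have v2 : ∀ T, insert j (u T) ∉ G → v T = insert j (u T) := fun T hT => by
    rw [hv]
    exact if_neg hT
  have v3 : ∀ T ∈ F, insert j (u T) ∉ G → j ∉ u T := fun T hT hn hm =>
    hn (by rw [insert_eq_self.2 hm]; exact huG T hT)
  have hmem : ∀ R, R ∈ F.image v ↔
      (j ∈ R ∧ (R ∈ G ∨ R.erase j ∈ G)) ∨ (j ∉ R ∧ R ∈ G ∧ insert j R ∈ G) := by
    intro R
    rw [mem_image]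
    constructor
    · rintro ⟨T, hT, rfl⟩
      by_cases hc : insert j (u T) ∈ G
      · rw [v1 T hc]
        by_cases hju : j ∈ u T
        · exact Or.inl ⟨hju, Or.inl (huG T hT)⟩
        · exact Or.inr ⟨hju, huG T hT, hc⟩
      · rw [v2 T hc]
        refine Or.inl ⟨mem_insert_self _ _, Or.inr ?_⟩
        rw [erase_insert (v3 T hT hc)]
        exact huG T hT
    · rintro (⟨hjR, hR | hR⟩ | ⟨hjR, hR, hR2⟩)
      · rw [hG, mem_image] at hR
        obtain ⟨T, hT, rfl⟩ := hR
        refine ⟨T, hT, v1 T ?_⟩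
        rw [insert_eq_self.2 hjR]
        exact huG T hT
      · by_cases hRG : R ∈ G
        · have hR' := hRG
          rw [hG, mem_image] at hR'
          obtain ⟨T, hT, rfl⟩ := hR'
          refine ⟨T, hT, v1 T ?_⟩
          rw [insert_eq_self.2 hjR]
          exact hRG
        · rw [hG, mem_image] at hR
          obtain ⟨T, hT, hTR⟩ := hR
          refine ⟨T, hT, ?_⟩
          have e : insert j (u T) = R := by
            rw [hTR, insert_erase hjR]
          rw [v2 T (by rw [e]; exact hRG), e]
      · have hR' := hR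
        rw [hG, mem_image] at hR'
        obtain ⟨T, hT, rfl⟩ := hR'
        exact ⟨T, hT, v1 T hR2⟩
  refine ⟨v, ?_, ?_, ?_, ?_, ?_⟩
  · intro T hT
    obtain ⟨a1, a2⟩ := h1 T hT
    by_cases hc : insert j (u T) ∈ G
    · rw [v1 T hc]
      exact ⟨a1, a2.trans (union_subset_union_right (subset_insert j W))⟩
    · rw [v2 T hc]
      refine ⟨a1.trans (subset_insert _ _), ?_⟩
      rw [insert_subset_iff]
      exact ⟨mem_union_right _ (mem_insert_self _ _),
        a2.trans (union_subset_union_right (subset_insert j W))⟩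
  · intro T hT T' hT' he
    have hT1 : T ∈ F := hT
    have hT1' : T' ∈ F := hT'
    by_cases hc : insert j (u T) ∈ G <;> by_cases hc' : insert j (u T') ∈ G
    · rw [v1 T hc, v1 T' hc'] at he
      exact h2 hT hT' he
    · rw [v1 T hc, v2 T' hc'] at he
      exact absurd (he ▸ huG T hT1) hc'
    · rw [v2 T hc, v1 T' hc'] at he
      exact absurd (he.symm ▸ huG T' hT1') hc
    · rw [v2 T hc, v2 T' hc'] at he
      refine h2 hT hT' ?_
      rw [← erase_insert (v3 T hT1 hc), ← erase_insert (v3 T' hT1' hc'), he]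
  · intro R hR k hk
    rw [hmem] at hR
    by_cases hkj : k = j
    · rw [hkj, hmem]
      left
      refine ⟨mem_insert_self _ _, ?_⟩
      rcases hR with ⟨hjR, hR | hR⟩ | ⟨_, _, hR⟩
      · left
        rw [insert_eq_self.2 hjR]
        exact hR
      · right
        rw [insert_eq_self.2 hjR]
        exact hR
      · exact Or.inl hR
    · have hkW : k ∈ W := by
        rcases mem_insert.1 hk with h | h
        · exact absurd h hkj
        · exact h
      rw [hmem]
      rcases hR with ⟨hjR, hR | hR⟩ | ⟨hjR, hR, hR2⟩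
      · exact Or.inl ⟨mem_insert_of_mem hjR, Or.inl (h3 R hR k hkW)⟩
      · refine Or.inl ⟨mem_insert_of_mem hjR, Or.inr ?_⟩
        have e : (insert k R).erase j = insert k (R.erase j) := erase_insert_of_ne hkj
        rw [e]
        exact h3 _ hR k hkW
      · refine Or.inr ⟨?_, h3 R hR k hkW, ?_⟩
        · rw [mem_insert, not_or]
          exact ⟨fun h => hkj h.symm, hjR⟩
        · rw [Finset.insert_comm]
          exact h3 _ hR2 k hkW
  · intro R hR T hT
    rw [hmem] at hR ⊢
    rcases hR with ⟨hjR, hR | hR⟩ | ⟨hjR, hR, hR2⟩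
    · exact Or.inl ⟨mem_union_left _ hjR, Or.inl (h4 R hR T hT)⟩
    · have h6 := h4 _ hR T hT
      refine Or.inl ⟨mem_union_left _ hjR, ?_⟩
      by_cases hjT : j ∈ T
      · left
        have e : R.erase j ∪ T = R ∪ T := by
          ext a
          simp only [mem_union, mem_erase]
          constructor
          · rintro (h | h)
            · exact Or.inl h.2
            · exact Or.inr h
          · rintro (h | h)
            · by_cases haj : a = j
              · right
                rw [haj]
                exact hjT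
              · exact Or.inl ⟨haj, h⟩
            · exact Or.inr h
        rw [← e]
        exact h6
      · right
        have e : (R ∪ T).erase j = R.erase j ∪ T := by
          ext a
          simp only [mem_union, mem_erase]
          constructor
          · rintro ⟨h, h' | h'⟩
            · exact Or.inl ⟨h, h'⟩
            · exact Or.inr h'
          · rintro (h | h)
            · exact ⟨h.1, Or.inl h.2⟩
            · exact ⟨fun hh => hjT (hh ▸ h), Or.inr h⟩
        rw [e]
        exact h6
    · by_cases hjT : j ∈ T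
      · exact Or.inl ⟨mem_union_right _ hjT, Or.inl (h4 R hR T hT)⟩
      · refine Or.inr ⟨?_, h4 R hR T hT, ?_⟩
        · rw [mem_union, not_or]
          exact ⟨hjR, hjT⟩
        · rw [← insert_union]
          exact h4 _ hR2 T hT
  · intro T hT T' hT' X a1 a2 a3 a4
    obtain ⟨b1, b2⟩ := h1 T hT
    obtain ⟨b1', b2'⟩ := h1 T' hT'
    -- an element outside `v T ∖ {j}` is in `u T`
    have hvu : ∀ S, ∀ a ∈ v S, a ≠ j → a ∈ u S := by
      intro S a ha haj
      by_cases hc : insert j (u S) ∈ G
      · rw [v1 S hc] at ha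
        exact ha
      · rw [v2 S hc] at ha
        rcases mem_insert.1 ha with h | h
        · exact absurd h haj
        · exact h
    -- the mixed case is impossible
    have mixed : ∀ S ∈ F, ∀ S' ∈ F, S' ⊆ X → X ⊆ v S → j ∈ X → j ∉ u S → j ∈ S' → False := by
      intro S hS S' hS' c1 c2 c3 c4 c5
      have hc : insert j (u S) ∉ G := by
        intro hc
        rw [v1 S hc] at c2
        exact c4 (c2 c3)
      have e : u S ∪ S' = insert j (u S) := by
        apply Subset.antisymm
        · refine union_subset (subset_insert _ _) ?_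
          rw [v2 S hc] at c2
          exact c1.trans c2
        · rw [insert_subset_iff]
          exact ⟨mem_union_right _ c5, subset_union_left⟩
      exact hc (e ▸ h4 _ (huG S hS) S' hS')
    by_cases hjX : j ∈ X
    · by_cases hju : j ∈ u T <;> by_cases hju' : j ∈ u T'
      · refine h5 T hT T' hT' X a1 ?_ a3 ?_
        · intro a ha
          by_cases haj : a = j
          · rw [haj]
            exact hju
          · exact hvu T a (a2 ha) haj
        · intro a ha
          by_cases haj : a = j
          · rw [haj]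
            exact hju'
          · exact hvu T' a (a4 ha) haj
      · exfalso
        have hjT : j ∈ T := by
          rcases mem_union.1 (b2 hju) with h | h
          · exact h
          · exact absurd h hj
        exact mixed T' hT' T hT a1 a4 hjX hju' hjT
      · exfalso
        have hjT : j ∈ T' := by
          rcases mem_union.1 (b2' hju') with h | h
          · exact h
          · exact absurd h hj
        exact mixed T hT T' hT' a3 a2 hjX hju hjT
      · refine h5 T hT T' hT' (X.erase j) ?_ ?_ ?_ ?_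
        · exact subset_erase.2 ⟨a1, fun h => hju (b1 h)⟩
        · intro a ha
          exact hvu T a (a2 (mem_of_mem_erase ha)) (ne_of_mem_erase ha)
        · exact subset_erase.2 ⟨a3, fun h => hju' (b1' h)⟩
        · intro a ha
          exact hvu T' a (a4 (mem_of_mem_erase ha)) (ne_of_mem_erase ha)
    · refine h5 T hT T' hT' X a1 ?_ a3 ?_
      · intro a ha
        exact hvu T a (a2 ha) (fun h => hjX (h ▸ ha))
      · intro a ha
        exact hvu T' a (a4 ha) (fun h => hjX (h ▸ ha))

/-- Reimer's compression. -/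
theorem reimer {F : Finset (Finset α)} (hF : ∀ S ∈ F, ∀ T ∈ F, S ∪ T ∈ F) (V : Finset α) :
    ∃ u, Comp F V u := by
  induction V using Finset.induction_on with
  | empty => exact ⟨id, comp_empty hF⟩
  | insert j W hj ih =>
    obtain ⟨u, hu⟩ := ih
    exact comp_step hu hj

theorem pow_sum_le {F : Finset (Finset α)} {V : Finset α} {u : Finset α → Finset α}
    (hu : Comp F V u) (hFV : F ⊆ V.powerset) {H : Finset (Finset α)}
    (hH : ∀ T ∈ F, ∀ X, T ⊆ X → X ⊆ V → X ∈ H) :
    ∑ T ∈ F, 2 ^ (u T \ T).card ≤ H.card := by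
  obtain ⟨h1, h2, h3, h4, h5⟩ := hu
  have e1 : ∀ T ∈ F, 2 ^ (u T \ T).card = (Finset.Icc T (u T)).card := by
    intro T hT
    rw [card_Icc_finset (h1 T hT).1, card_sdiff_of_subset (h1 T hT).1]
  rw [sum_congr rfl e1, ← card_biUnion]
  · refine card_le_card fun X hX => ?_
    rw [mem_biUnion] at hX
    obtain ⟨T, hT, hX⟩ := hX
    rw [mem_Icc] at hX
    refine hH T hT X hX.1 (hX.2.trans ((h1 T hT).2.trans ?_))
    exact union_subset (mem_powerset.1 (hFV hT)) (Subset.refl _)
  · intro T hT T' hT' hne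
    rw [Function.onFun, disjoint_left]
    intro X hX hX'
    rw [mem_Icc] at hX hX'
    exact hne (h5 T hT T' hT' X hX.1 hX.2 hX'.1 hX'.2)

/-- For an up-set of subsets of `V`. -/
theorem up_sum {V : Finset α} {U : Finset (Finset α)} (hU : U ⊆ V.powerset)
    (hup : ∀ R ∈ U, ∀ k ∈ V, insert k R ∈ U) :
    (V.card : ℝ) * U.card - 2 * (ei U.card : ℝ) ≤ ∑ R ∈ U, (2 * (R.card : ℝ) - V.card) := by
  have hinj : Set.InjOn (fun R : Finset α => V \ R) (U : Set (Finset α)) := by
    intro a ha b hb hab
    have ha' := mem_powerset.1 (hU ha)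
    have hb' := mem_powerset.1 (hU hb)
    have h : V \ a = V \ b := hab
    rw [← Finset.sdiff_sdiff_eq_self ha', h, Finset.sdiff_sdiff_eq_self hb']
  have hup' : ∀ R ∈ U, ∀ Z ⊆ V, R ⊆ Z → Z ∈ U := by
    intro R hR Z hZ hRZ
    have key : ∀ W : Finset α, W ⊆ V → R ∪ W ∈ U := by
      intro W
      induction W using Finset.induction_on with
      | empty =>
        intro _
        rw [union_empty]
        exact hR
      | insert k W _ ih =>
        intro hW
        rw [insert_subset_iff] at hW
        rw [union_insert]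
        exact hup _ (ih hW.2) k hW.1
    have h := key Z hZ
    rwa [union_eq_right.2 hRZ] at h
  have hD : Down (U.image fun R => V \ R) := by
    intro Y hY Z hZ
    rw [mem_image] at hY
    obtain ⟨R, hR, rfl⟩ := hY
    have hZV : Z ⊆ V := hZ.trans sdiff_subset
    rw [mem_image]
    refine ⟨V \ Z, hup' R hR _ sdiff_subset ?_, Finset.sdiff_sdiff_eq_self hZV⟩
    intro a ha
    rw [mem_sdiff]
    refine ⟨mem_powerset.1 (hU hR) ha, fun haZ => ?_⟩
    exact (mem_sdiff.1 (hZ haZ)).2 ha
  have h1 := sum_card_le V (U.image fun R => V \ R) (by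
    intro Y hY
    rw [mem_image] at hY
    obtain ⟨R, _, rfl⟩ := hY
    exact mem_powerset.2 sdiff_subset) hD
  rw [sum_image hinj, card_image_of_injOn hinj] at h1
  have h2 : ∀ R ∈ U, ((V \ R).card : ℝ) = (V.card : ℝ) - R.card := by
    intro R hR
    have h3 := card_sdiff_add_card_eq_card (mem_powerset.1 (hU hR))
    have h4 : ((V \ R).card : ℝ) + (R.card : ℝ) = V.card := by exact_mod_cast h3
    linarith
  rw [sum_congr rfl h2, sum_sub_distrib, sum_const, nsmul_eq_mul] at h1
  rw [sum_sub_distrib, sum_const, nsmul_eq_mul, ← mul_sum]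
  linarith

theorem two_pow_ge (t x : ℕ) : (2 : ℝ) ^ t * (1 + (x : ℝ) - t) ≤ 2 ^ x := by
  rcases le_total t x with h | h
  · obtain ⟨y, rfl⟩ := Nat.exists_eq_add_of_le h
    have h1 : (y : ℝ) + 1 ≤ 2 ^ y := by
      have h2 : y + 1 ≤ 2 ^ y := Nat.lt_two_pow_self
      exact_mod_cast h2
    rw [pow_add]
    push_cast
    have h3 : (0 : ℝ) ≤ 2 ^ t := by positivity
    nlinarith [mul_le_mul_of_nonneg_left h1 h3]
  · obtain ⟨y, rfl⟩ := Nat.exists_eq_add_of_le h
    rcases Nat.eq_zero_or_pos y with h0 | h0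
    · rw [h0]
      push_cast
      have h3 : (2 : ℝ) ^ (x + 0) * (1 + (x : ℝ) - ((x : ℝ) + 0)) = 2 ^ x := by
        rw [add_zero]
        ring
      exact h3.le
    · have h1 : (1 : ℝ) ≤ y := by exact_mod_cast h0
      have h3 : (0 : ℝ) < 2 ^ (x + y) := by positivity
      have h4 : (0 : ℝ) ≤ 2 ^ x := by positivity
      push_cast
      nlinarith [mul_nonneg h3.le (by linarith : (0 : ℝ) ≤ (y : ℝ) - 1)]

/-- The bound for the sum of the sizes. -/
theorem reimer_bound {F : Finset (Finset α)} (hF : ∀ S ∈ F, ∀ T ∈ F, S ∪ T ∈ F)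
    {V : Finset α} (hFV : F ⊆ V.powerset) {H : Finset (Finset α)}
    (hH : ∀ T ∈ F, ∀ X, T ⊆ X → X ⊆ V → X ∈ H) (t : ℕ) :
    (V.card : ℝ) * F.card - 2 * (ei F.card : ℝ) ≤
      ∑ T ∈ F, (2 * (T.card : ℝ) - V.card) +
        2 * ((H.card : ℝ) / 2 ^ t + ((t : ℝ) - 1) * F.card) := by
  obtain ⟨u, hu⟩ := reimer hF V
  have h0 := pow_sum_le hu hFV hH
  obtain ⟨h1, h2, h3, h4, h5⟩ := hu
  have hV : F.image u ⊆ V.powerset := by
    intro R hR
    rw [mem_image] at hR
    obtain ⟨T, hT, rfl⟩ := hR
    exact mem_powerset.2 ((h1 T hT).2.trans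
      (union_subset (mem_powerset.1 (hFV hT)) (Subset.refl _)))
  have h6 := up_sum hV h3
  rw [card_image_of_injOn h2, sum_image h2] at h6
  have h7 : (2 : ℝ) ^ t * (((1 : ℝ) - t) * F.card + ∑ T ∈ F, ((u T \ T).card : ℝ)) ≤ H.card := by
    have h8 : ∑ T ∈ F, (2 : ℝ) ^ t * (1 + ((u T \ T).card : ℝ) - t) ≤
        ∑ T ∈ F, (2 : ℝ) ^ (u T \ T).card := sum_le_sum fun T _ => two_pow_ge _ _
    have h9 : ∑ T ∈ F, (2 : ℝ) ^ (u T \ T).card ≤ (H.card : ℝ) := by exact_mod_cast h0
    refine le_trans (le_of_eq ?_) (h8.trans h9)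
    rw [← mul_sum]
    congr 1
    have h10 : ∀ T ∈ F, (1 : ℝ) + ((u T \ T).card : ℝ) - t =
        ((1 : ℝ) - t) + ((u T \ T).card : ℝ) := fun T _ => by ring
    rw [sum_congr rfl h10, sum_add_distrib, sum_const, nsmul_eq_mul]
    ring
  have h8 : ((1 : ℝ) - t) * F.card + ∑ T ∈ F, ((u T \ T).card : ℝ) ≤ (H.card : ℝ) / 2 ^ t := by
    rw [le_div_iff₀ (by positivity)]
    linarith
  have h9 : ∀ T ∈ F, (2 * ((u T).card : ℝ) - V.card) =
      (2 * (T.card : ℝ) - V.card) + 2 * ((u T \ T).card : ℝ) := by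
    intro T hT
    have h10 := card_sdiff_add_card_eq_card (h1 T hT).1
    have h11 : ((u T \ T).card : ℝ) + (T.card : ℝ) = (u T).card := by exact_mod_cast h10
    linarith
  rw [sum_congr rfl h9, sum_add_distrib, ← mul_sum] at h6
  linarith

end Pool.Agent.H51.UC
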